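import Mathlib

set_option autoImplicit false

/-! Quasi-identities in the language of groups, right-orderable and locally indicable groups. -/

namespace Pool.Agent.H387Z.QI

universe u

/-- `G` carries a total order with `x ≤ y → x z ≤ y z`. -/
def RightOrderable (G : Type u) [Group G] : Prop :=
  ∃ o : LinearOrder G, ∀ x y z : G, o.le x y → o.le (x * z) (y * z)

/-- Every non-trivial finitely generated subgroup of `G` has a homomorphism onto `ℤ`. -/
def LocallyIndicable (G : Type u) [Group G] : Prop :=
  ∀ H : Subgroup G, H.FG → H ≠ ⊥ → ∃ f : H →* Multiplicative ℤ, Function.Surjective f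

/-- `g ^ n = 1` with `n ≥ 1` implies `g = 1`. -/
def TorsionFree (G : Type u) [Group G] : Prop :=
  ∀ (g : G) (n : ℕ), 1 ≤ n → g ^ n = 1 → g = 1

/-- The quasi-identity `∀ x₁ … xₘ, (u₁ = 1 ∧ … ∧ uₖ = 1 → w = 1)`: `m` variables, the list
`prem` of the words `uᵢ` and the word `concl = w`. -/
structure QuasiIdentity where
  m : ℕ
  prem : List (FreeGroup (Fin m))
  concl : FreeGroup (Fin m)

/-- The quasi-identity `q` holds in the group `G`. -/
def QuasiIdentity.Holds (q : QuasiIdentity) (G : Type u) [Group G] : Prop :=
  ∀ x : Fin q.m → G, (∀ v ∈ q.prem, FreeGroup.lift x v = 1) → FreeGroup.lift x q.concl = 1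

/-- `S` defines the class `K` in the class of torsion-free groups. -/
def DefinesInTorsionFree (S : Set QuasiIdentity) (K : (G : Type u) → [Group G] → Prop) : Prop :=
  ∀ (G : Type u) [Group G], TorsionFree G → (K G ↔ ∀ q ∈ S, q.Holds G)

/-- No member of `S` holds in every torsion-free group satisfying all the other members. -/
def IndependentInTorsionFree (S : Set QuasiIdentity) : Prop :=
  ∀ q ∈ S, ¬ ∀ (G : Type u) [Group G], TorsionFree G → (∀ p ∈ S \ {q}, p.Holds G) → q.Holds G

end Pool.Agent.H387Z.QI
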