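import Mathlib
import Pool.Agent.H387Z.QI.Defs

set_option autoImplicit false
set_option linter.style.haveILetI false

namespace Pool.Agent.H387Z.QI

universe u v

structure Cone {G : Type u} [Group G] (P : Set G) : Prop where
  mul : ∀ a ∈ P, ∀ b ∈ P, a * b ∈ P
  one : (1 : G) ∉ P
  tri : ∀ a, a ≠ 1 → a ∈ P ∨ a⁻¹ ∈ P

def RO (G : Type u) [Group G] : Prop := ∃ P : Set G, Cone P

/-- no non-trivial homomorphism to `ℤ` -/
def NI (G : Type u) [Group G] : Prop := ∀ f : G →* Multiplicative ℤ, ∀ g, f g = 1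

variable {G : Type u} [Group G]

theorem Cone.asymm {P : Set G} (h : Cone P) {a : G} (ha : a ∈ P) : a⁻¹ ∉ P := fun hb =>
  h.one (by simpa using h.mul a ha _ hb)

theorem Cone.inv {P : Set G} (h : Cone P) : Cone {a | a⁻¹ ∈ P} := by
  refine ⟨fun a ha b hb => ?_, by simpa using h.one, fun a ha => ?_⟩
  · simpa using h.mul _ hb _ ha
  · simpa using (h.tri a ha).symm

theorem Cone.comap {H : Type v} [Group H] {P : Set G} (h : Cone P) (f : H →* G)
    (hf : Function.Injective f) : Cone {a | f a ∈ P} := by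
  refine ⟨fun a ha b hb => ?_, by simpa using h.one, fun a ha => ?_⟩
  · simpa using h.mul _ ha _ hb
  · have : f a ≠ 1 := fun e => ha (hf (by simpa using e))
    simpa using h.tri _ this

theorem RO.of_injective {H : Type v} [Group H] (h : RO G) (f : H →* G)
    (hf : Function.Injective f) : RO H := by
  obtain ⟨P, hP⟩ := h
  exact ⟨_, hP.comap f hf⟩

/-- the left-invariant order of a cone -/
@[reducible] noncomputable def Cone.ord {P : Set G} (h : Cone P) : LinearOrder G :=
  open Classical in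
  { le := fun a b => a = b ∨ a⁻¹ * b ∈ P
    lt := fun a b => a⁻¹ * b ∈ P
    le_refl := fun a => Or.inl rfl
    le_trans := by
      rintro a b c (rfl | h1) (rfl | h2)
      · exact Or.inl rfl
      · exact Or.inr h2
      · exact Or.inr h1
      · exact Or.inr (by simpa [mul_assoc] using h.mul _ h1 _ h2)
    lt_iff_le_not_ge := by
      intro a b
      constructor
      · intro h1
        refine ⟨Or.inr h1, ?_⟩
        rintro (rfl | h2)
        · exact h.one (by simpa using h1)
        · exact h.asymm h1 (by simpa using h2)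
      · rintro ⟨rfl | h1, h2⟩
        · exact absurd (Or.inl rfl) h2
        · exact h1
    le_antisymm := by
      rintro a b (rfl | h1) h2
      · rfl
      · rcases h2 with rfl | h2
        · rfl
        · exact absurd (by simpa using h2) (h.asymm h1)
    le_total := by
      intro a b
      by_cases e : a = b
      · exact Or.inl (Or.inl e)
      · have : a⁻¹ * b ≠ 1 := fun e' => e (inv_mul_eq_one.mp e')
        rcases h.tri _ this with h1 | h1
        · exact Or.inl (Or.inr h1)
        · exact Or.inr (Or.inr (by simpa using h1))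
    toDecidableLE := fun _ _ => inferInstance }

theorem Cone.ord_lt {P : Set G} (h : Cone P) (a b : G) :
    h.ord.lt a b ↔ a⁻¹ * b ∈ P := Iff.rfl

theorem Cone.ord_mono {P : Set G} (h : Cone P) : @MulLeftStrictMono G _ h.ord.toLT := by
  letI := h.ord
  refine ⟨fun c a b hab => ?_⟩
  change (c * a)⁻¹ * (c * b) ∈ P
  have : (c * a)⁻¹ * (c * b) = a⁻¹ * b := by group
  rw [this]; exact hab

theorem ro_iff : RO G ↔ RightOrderable G := by
  constructor
  · rintro ⟨P, hP⟩
    letI := hP.ord
    refine ⟨LinearOrder.lift' (fun a : G => a⁻¹) inv_injective, fun x y z hxy => ?_⟩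
    change x⁻¹ = y⁻¹ ∨ x⁻¹⁻¹ * y⁻¹ ∈ P at hxy
    change (x * z)⁻¹ = (y * z)⁻¹ ∨ (x * z)⁻¹⁻¹ * (y * z)⁻¹ ∈ P
    rcases hxy with h | h
    · left; rw [inv_injective h]
    · right
      have : (x * z)⁻¹⁻¹ * (y * z)⁻¹ = x⁻¹⁻¹ * y⁻¹ := by group
      rw [this]; exact h
  · rintro ⟨o, ho⟩
    have hlt : ∀ x y z : G, x < y → x * z < y * z := fun x y z h =>
      lt_of_le_of_ne (ho x y z h.le) (fun e => h.ne (mul_right_cancel e))
    refine ⟨{a | 1 < a}, fun a ha b hb => ?_, lt_irrefl _, fun a ha => ?_⟩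
    · have := hlt _ _ b ha
      rw [one_mul] at this
      exact lt_trans hb this
    · rcases lt_or_gt_of_ne ha with h | h
      · right
        have := hlt _ _ a⁻¹ h
        simpa using this
      · exact Or.inl h

/-- limits of sets along an ultrafilter on finite subsets -/
theorem exists_limit {X : Type u} {ι : Type v} (P : Finset ι → Set X) :
    ∃ Q : Set X, ∀ (S : Finset X) (B : Finset ι), ∃ A, B ⊆ A ∧ ∀ g ∈ S, (g ∈ Q ↔ g ∈ P A) := by
  classical
  let U : Ultrafilter (Finset ι) := Ultrafilter.of Filter.atTop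
  have hU : (U : Filter (Finset ι)) ≤ Filter.atTop := Ultrafilter.of_le _
  refine ⟨{g | ∀ᶠ A in (U : Filter (Finset ι)), g ∈ P A}, fun S B => ?_⟩
  have h1 : ∀ᶠ A in (U : Filter (Finset ι)), B ⊆ A := hU (Filter.eventually_ge_atTop B)
  have h2 : ∀ᶠ A in (U : Filter (Finset ι)), ∀ g ∈ S,
      (g ∈ {g | ∀ᶠ A in (U : Filter (Finset ι)), g ∈ P A} ↔ g ∈ P A) := by
    rw [Filter.eventually_all_finset]
    intro g _
    by_cases hg : ∀ᶠ A in (U : Filter (Finset ι)), g ∈ P A
    · exact hg.mono fun A hA => ⟨fun _ => hA, fun _ => hg⟩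
    · have hg' := Ultrafilter.eventually_not.mpr hg
      exact hg'.mono fun A hA => ⟨fun h => absurd h hg, fun h => absurd h hA⟩
  exact (h1.and h2).exists

/-- local criterion -/
theorem ro_of_local (h : ∀ A : Finset G, ∃ P : Set G, (1 : G) ∉ P ∧
    (∀ a ∈ A, ∀ b ∈ A, a ∈ P → b ∈ P → a * b ∈ P) ∧ ∀ a ∈ A, a ≠ 1 → a ∈ P ∨ a⁻¹ ∈ P) :
    RO G := by
  classical
  choose P h1 h2 h3 using h
  obtain ⟨Q, hQ⟩ := exists_limit P
  refine ⟨Q, fun a ha b hb => ?_, fun h => ?_, fun a ha => ?_⟩
  · obtain ⟨A, hA, hS⟩ := hQ {a, b, a * b} {a, b}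
    rw [hS _ (by simp)] at ha hb ⊢
    exact h2 A a (hA (by simp)) b (hA (by simp)) ha hb
  · obtain ⟨A, -, hS⟩ := hQ {1} ∅
    exact h1 A ((hS _ (by simp)).mp h)
  · obtain ⟨A, hA, hS⟩ := hQ {a, a⁻¹} {a}
    rw [hS a (by simp), hS a⁻¹ (by simp)]
    exact h3 A a (hA (by simp)) ha

theorem ro_of_fg (h : ∀ A : Finset G, RO (Subgroup.closure (A : Set G))) : RO G := by
  refine ro_of_local fun A => ?_
  obtain ⟨P, hP⟩ := h A
  refine ⟨Subtype.val '' P, ?_, ?_, ?_⟩
  · rintro ⟨x, hx, e⟩
    have : x = 1 := Subtype.ext e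
    exact hP.one (this ▸ hx)
  · rintro _ - _ - ⟨a, ha, rfl⟩ ⟨b, hb, rfl⟩
    exact ⟨a * b, hP.mul a ha b hb, rfl⟩
  · intro a ha h1
    rcases hP.tri ⟨a, Subgroup.subset_closure ha⟩ (fun e => h1 (congrArg Subtype.val e)) with h | h
    · exact Or.inl ⟨_, h, rfl⟩
    · exact Or.inr ⟨_, h, rfl⟩

theorem exists_surj_of_ne {H : Type v} [Group H] (f : H →* Multiplicative ℤ) {g : H}
    (hg : f g ≠ 1) : ∃ f' : H →* Multiplicative ℤ, Function.Surjective f' := by
  have : Infinite f.range := by
    refine Infinite.of_injective (fun n : ℤ => (⟨f (g ^ n), ⟨_, rfl⟩⟩ : f.range)) ?_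
    intro a b hab
    have h1 : f (g ^ a) = f (g ^ b) := congrArg Subtype.val hab
    rw [map_zpow, map_zpow] at h1
    have h2 := congrArg Multiplicative.toAdd h1
    simp only [toAdd_zpow, smul_eq_mul] at h2
    have h3 : Multiplicative.toAdd (f g) ≠ 0 := hg
    exact mul_right_cancel₀ h3 h2
  have e : f.range ≃* Multiplicative ℤ :=
    mulEquivOfCyclicCardEq (by rw [Nat.card_eq_zero_of_infinite, Nat.card_eq_zero_of_infinite])
  exact ⟨e.toMonoidHom.comp f.rangeRestrict, e.surjective.comp f.rangeRestrict_surjective⟩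

theorem li_iff : LocallyIndicable G ↔ ∀ H : Subgroup G, H.FG → NI H → H = ⊥ := by
  constructor
  · intro h H hH hN
    by_contra hne
    obtain ⟨f, hf⟩ := h H hH hne
    obtain ⟨g, hg⟩ := hf (Multiplicative.ofAdd 1)
    rw [hN f g] at hg
    exact absurd (congrArg Multiplicative.toAdd hg) (by simp)
  · intro h H hH hne
    by_contra hc
    refine hne (h H hH fun f g => ?_)
    by_contra hg
    exact hc (exists_surj_of_ne f hg)

/-- Burns and Hale -/
theorem ro_of_li (h : LocallyIndicable G) : RO G := by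
  classical
  refine ro_of_local fun A => ?_
  induction A using Finset.strongInduction with
  | H A ih =>
  by_cases hb : Subgroup.closure (A : Set G) = ⊥
  · refine ⟨∅, by simp, by simp, fun a ha h1 => ?_⟩
    have : a ∈ Subgroup.closure (A : Set G) := Subgroup.subset_closure ha
    rw [hb] at this
    exact absurd (Subgroup.mem_bot.mp this) h1
  · set S := Subgroup.closure (A : Set G) with hS
    obtain ⟨f, hf⟩ := h S ⟨A, rfl⟩ hb
    let l : G → ℤ := fun g => if hg : g ∈ S then Multiplicative.toAdd (f ⟨g, hg⟩) else 0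
    have lmul : ∀ a ∈ S, ∀ b ∈ S, l (a * b) = l a + l b := by
      intro a ha b hb
      simp only [l, dif_pos ha, dif_pos hb, dif_pos (S.mul_mem ha hb)]
      rw [← toAdd_mul, ← map_mul]; rfl
    have lone : l 1 = 0 := by
      have := lmul 1 S.one_mem 1 S.one_mem
      rw [mul_one] at this; omega
    have linv : ∀ a ∈ S, l a⁻¹ = - l a := by
      intro a ha
      have := lmul a ha a⁻¹ (S.inv_mem ha)
      rw [mul_inv_cancel, lone] at this; omega
    have hss : A.filter (fun a => l a = 0) ⊂ A := by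
      refine Finset.filter_ssubset.mpr ?_
      by_contra hc
      push Not at hc
      have key : ∀ g ∈ S, l g = 0 := by
        intro g hg
        induction hg using Subgroup.closure_induction with
        | mem x hx => exact hc x hx
        | one => exact lone
        | mul x y hx hy h1 h2 => rw [lmul x hx y hy, h1, h2]; rfl
        | inv x hx h1 => rw [linv x hx, h1]; rfl
      obtain ⟨g, hg⟩ := hf (Multiplicative.ofAdd 1)
      have := key g g.2
      simp only [l, dif_pos g.2] at this
      rw [show (⟨(g : G), g.2⟩ : S) = g from rfl, hg] at this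
      simp at this
    obtain ⟨P, h1, h2, h3⟩ := ih _ hss
    have hA : ∀ a ∈ A, a ∈ S := fun a ha => Subgroup.subset_closure ha
    refine ⟨{g | 0 < l g ∨ (l g = 0 ∧ g ∈ P)}, ?_, ?_, ?_⟩
    · rintro (h | h)
      · omega
      · exact h1 h.2
    · intro a ha b hb hpa hpb
      have e := lmul a (hA a ha) b (hA b hb)
      rcases hpa with hpa | hpa <;> rcases hpb with hpb | hpb
      · left; omega
      · left; have := hpb.1; omega
      · left; have := hpa.1; omega
      · right
        refine ⟨by rw [e, hpa.1, hpb.1]; rfl, h2 a ?_ b ?_ hpa.2 hpb.2⟩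
        · exact Finset.mem_filter.mpr ⟨ha, hpa.1⟩
        · exact Finset.mem_filter.mpr ⟨hb, hpb.1⟩
    · intro a ha hne
      have e := linv a (hA a ha)
      rcases lt_trichotomy (l a) 0 with h | h | h
      · right; left; omega
      · rcases h3 a (Finset.mem_filter.mpr ⟨ha, h⟩) hne with h' | h'
        · left; right; exact ⟨h, h'⟩
        · right; right; exact ⟨by omega, h'⟩
      · left; left; exact h

theorem ro_ext {Q : Type v} [Group Q] (p : G →* Q) (hQ : RO Q) (hK : RO p.ker) : RO G := by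
  obtain ⟨P, hP⟩ := hQ
  obtain ⟨R, hR⟩ := hK
  refine ⟨{g | p g ∈ P ∨ ∃ h : g ∈ p.ker, (⟨g, h⟩ : p.ker) ∈ R}, ?_, ?_, ?_⟩
  · rintro a (ha | ⟨ha, ha'⟩) b (hb | ⟨hb, hb'⟩)
    · left; rw [map_mul]; exact hP.mul _ ha _ hb
    · left; rw [map_mul, p.mem_ker.mp hb, mul_one]; exact ha
    · left; rw [map_mul, p.mem_ker.mp ha, one_mul]; exact hb
    · right; exact ⟨p.ker.mul_mem ha hb, hR.mul _ ha' _ hb'⟩
  · rintro (h | ⟨h, h'⟩)
    · exact hP.one (by simpa using h)
    · exact hR.one h'
  · intro a ha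
    by_cases h : p a = 1
    · rcases hR.tri ⟨a, h⟩ (fun e => ha (congrArg Subtype.val e)) with h' | h'
      · left; right; exact ⟨h, h'⟩
      · right; right; exact ⟨p.ker.inv_mem h, h'⟩
    · rcases hP.tri _ h with h' | h'
      · left; left; exact h'
      · right; left; simpa using h'

theorem ro_prod {H : Type v} [Group H] (h1 : RO G) (h2 : RO H) : RO (G × H) := by
  refine ro_ext (MonoidHom.fst G H) h1 (h2.of_injective
    ((MonoidHom.snd G H).comp (MonoidHom.fst G H).ker.subtype) ?_)
  rintro ⟨⟨a, b⟩, ha⟩ ⟨⟨c, d⟩, hc⟩ e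
  have ha' : a = 1 := ha
  have hc' : c = 1 := hc
  have e' : b = d := e
  subst ha' hc' e'
  rfl

theorem RO.uniqueProds (h : RO G) : UniqueProds G := by
  obtain ⟨P, hP⟩ := h
  letI := hP.ord
  haveI := hP.ord_mono
  haveI := TwoUniqueProds.of_covariant_right (G := G)
  infer_instance

theorem NI.of_surjective {H : Type v} [Group H] (h : NI G) (f : G →* H)
    (hf : Function.Surjective f) : NI H := by
  intro l y
  obtain ⟨x, rfl⟩ := hf y
  exact h (l.comp f) x

theorem fg_map {H : Type v} [Group H] {K : Subgroup G} (h : K.FG) (f : G →* H) :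
    (K.map f).FG := by
  classical
  obtain ⟨S, rfl⟩ := h
  exact ⟨S.image f, by rw [Finset.coe_image, MonoidHom.map_closure]⟩

theorem li_of_injective {H : Type v} [Group H] (h : LocallyIndicable G) (f : H →* G)
    (hf : Function.Injective f) : LocallyIndicable H := by
  rw [li_iff] at h ⊢
  intro K hK hN
  have h1 : K.map f = ⊥ := h _ (fg_map hK f) (hN.of_surjective _ (f.subgroupMap_surjective K))
  rwa [Subgroup.map_eq_bot_iff_of_injective _ hf] at h1

theorem li_ext {Q : Type v} [Group Q] (p : G →* Q) (hQ : LocallyIndicable Q)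
    (hK : LocallyIndicable p.ker) : LocallyIndicable G := by
  rw [li_iff] at hQ hK ⊢
  intro K hKfg hN
  have h1 : K.map p = ⊥ := hQ _ (fg_map hKfg p) (hN.of_surjective _ (p.subgroupMap_surjective K))
  have h2 : K ≤ p.ker := (Subgroup.map_eq_bot_iff K).mp h1
  have e := Subgroup.subgroupOfEquivOfLe h2
  have h3 : K.subgroupOf p.ker = ⊥ := by
    refine hK _ ?_ (hN.of_surjective e.symm.toMonoidHom e.symm.surjective)
    rw [← Group.fg_iff_subgroup_fg] at hKfg ⊢
    exact Group.fg_of_surjective (f := e.symm.toMonoidHom) e.symm.surjective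
  rw [Subgroup.subgroupOf_eq_bot] at h3
  exact h3.eq_bot_of_le h2

end Pool.Agent.H387Z.QI
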