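import Mathlib
import Pool.Agent.H387Z.QI.Cone
import Pool.Agent.Helper375.EA.Grp

set_option autoImplicit false
set_option linter.style.haveILetI false

namespace Pool.Agent.H387Z.QI

universe u v

section Ord

variable {G : Type u} [Group G] [LinearOrder G] [MulLeftStrictMono G]

theorem mlt (c : G) {a b : G} (h : a < b) : c * a < c * b := mul_lt_mul_right h c

theorem mle (c : G) {a b : G} (h : a ≤ b) : c * a ≤ c * b := by
  rcases h.lt_or_eq with h | rfl
  · exact (mlt c h).le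
  · exact le_rfl

theorem lt_iff_pos {a b : G} : a < b ↔ 1 < a⁻¹ * b := by
  constructor
  · intro h; simpa using mlt a⁻¹ h
  · intro h; simpa using mlt a h

theorem inv_lt_one_of {a : G} (h : 1 < a) : a⁻¹ < 1 := by simpa using mlt a⁻¹ h

theorem one_lt_inv_of {a : G} (h : a < 1) : 1 < a⁻¹ := by simpa using mlt a⁻¹ h

theorem lt_mul_pos (a : G) {b : G} (h : 1 < b) : a < a * b := by simpa using mlt a h

theorem pow_lt_succ {a : G} (h : 1 < a) (n : ℕ) : a ^ n < a ^ (n + 1) := by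
  rw [pow_succ]; exact lt_mul_pos _ h

theorem pow_smono {a : G} (h : 1 < a) : StrictMono fun n : ℕ => a ^ n :=
  strictMono_nat_of_lt_succ (pow_lt_succ h)

theorem one_lt_pw {a : G} (h : 1 < a) {n : ℕ} (hn : 0 < n) : 1 < a ^ n := by
  simpa using pow_smono h hn

theorem inv_pow_anti {a : G} (h : 1 < a) {m n : ℕ} (hmn : m ≤ n) : (a ^ n)⁻¹ ≤ (a ^ m)⁻¹ := by
  obtain ⟨k, rfl⟩ := Nat.exists_eq_add_of_le hmn
  have h1 : (a ^ k)⁻¹ ≤ 1 := by
    rcases Nat.eq_zero_or_pos k with rfl | hk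
    · simp
    · exact (inv_lt_one_of (one_lt_pw h hk)).le
  have := mle (a ^ m)⁻¹ h1
  rw [mul_one] at this
  convert this using 1
  rw [add_comm, pow_add, mul_inv_rev]

/-- Hölder's theorem: archimedean left-ordered groups are commutative -/
theorem holder (H : ∀ p : G, 1 < p → ∀ y : G, ∃ n : ℕ, y < p ^ n) (x y : G) : x * y = y * x := by
  have H1 : ∀ x y : G, 1 < x → 1 < y → 1 < y⁻¹ * x * y := by
    intro x y hx hy
    rw [mul_assoc, ← lt_iff_pos]
    by_contra hc
    push Not at hc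
    have : ∀ n : ℕ, x ^ n * y ≤ y := by
      intro n
      induction n with
      | zero => simp
      | succ n ih =>
        rw [pow_succ, mul_assoc]
        exact (mle _ hc).trans ih
    obtain ⟨n, hn⟩ := H x hx y
    exact absurd ((hn.trans (lt_mul_pos _ hy)).trans_le (this n)) (lt_irrefl _)
  have H2 : ∀ x z : G, 1 < x → 1 < z⁻¹ * x * z := by
    intro x z hx
    rcases lt_trichotomy z 1 with hz | rfl | hz
    · rcases lt_trichotomy (z⁻¹ * x * z) 1 with ht | ht | ht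
      · have := H1 _ _ (one_lt_inv_of ht) (one_lt_inv_of hz)
        have e : z⁻¹⁻¹ * (z⁻¹ * x * z)⁻¹ * z⁻¹ = x⁻¹ := by group
        rw [e] at this
        exact absurd (this.trans (inv_lt_one_of hx)) (lt_irrefl _)
      · have : x = 1 := by
          have e : x = z * (z⁻¹ * x * z) * z⁻¹ := by group
          rw [e, ht]; simp
        exact absurd hx (by simp [this])
      · exact ht
    · simpa using hx
    · exact H1 x z hx hz
  have R : ∀ (c : G) {a b : G}, a < b → a * c < b * c := by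
    intro c a b h
    rw [lt_iff_pos] at h ⊢
    have := H2 _ c h
    convert this using 1
    group
  have Rle : ∀ (c : G) {a b : G}, a ≤ b → a * c ≤ b * c := by
    intro c a b h
    rcases h.lt_or_eq with h | rfl
    · exact (R c h).le
    · exact le_rfl
  have invle : ∀ {a b : G}, a ≤ b → b⁻¹ ≤ a⁻¹ := by
    intro a b h
    have := Rle a⁻¹ (mle b⁻¹ h)
    simpa using this
  have fl : ∀ z x : G, 1 < z → 1 < x → ∃ m : ℕ, z ^ m ≤ x ∧ x < z ^ (m + 1) := by
    intro z x hz hx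
    classical
    have hex := H z hz x
    have h0 : Nat.find hex ≠ 0 := by
      intro h0
      have := Nat.find_spec hex
      rw [h0, pow_zero] at this
      exact absurd (this.trans hx) (lt_irrefl _)
    obtain ⟨m, hm⟩ := Nat.exists_eq_succ_of_ne_zero h0
    refine ⟨m, not_lt.mp (Nat.find_min hex (by omega)), ?_⟩
    have := Nat.find_spec hex
    rwa [hm] at this
  have main : ∀ x y : G, 1 < x → 1 < y → ¬ 1 < x * y * x⁻¹ * y⁻¹ := by
    intro x y hx hy hc
    set c := x * y * x⁻¹ * y⁻¹ with hcdef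
    by_cases hd : ∃ d, 1 < d ∧ d < c
    · obtain ⟨d, hd1, hd2⟩ := hd
      have hz : 1 < min d (d⁻¹ * c) := lt_min hd1 (lt_iff_pos.mp hd2)
      set z := min d (d⁻¹ * c) with hzdef
      have hz2 : z * z ≤ c := by
        have h1 : z * z ≤ d * z := Rle z (min_le_left _ _)
        have h2 : d * z ≤ d * (d⁻¹ * c) := mle d (min_le_right _ _)
        simpa using h1.trans h2
      obtain ⟨m, hm1, hm2⟩ := fl z x hz hx
      obtain ⟨n, hn1, hn2⟩ := fl z y hz hy
      have s1 : x * y < z ^ (m + 1) * z ^ (n + 1) := (mlt x hn2).trans (R _ hm2)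
      have s2 : x * y * x⁻¹ < z ^ (m + 1) * z ^ (n + 1) * (z ^ m)⁻¹ :=
        (R _ s1).trans_le (mle _ (invle hm1))
      have s3 : c < z ^ (m + 1) * z ^ (n + 1) * (z ^ m)⁻¹ * (z ^ n)⁻¹ :=
        (R _ s2).trans_le (mle _ (invle hn1))
      have e : z ^ (m + 1) * z ^ (n + 1) * (z ^ m)⁻¹ * (z ^ n)⁻¹ = z * z := by
        rw [← pow_two]; group
      rw [e] at s3
      exact absurd (s3.trans_le hz2) (lt_irrefl _)
    · push Not at hd
      have pw : ∀ x : G, 1 < x → ∃ m : ℕ, x = c ^ m := by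
        intro x hx
        obtain ⟨m, hm1, hm2⟩ := fl c x hc hx
        refine ⟨m, ?_⟩
        rcases hm1.lt_or_eq with h | h
        · have h1 := hd _ (lt_iff_pos.mp h)
          have h2 := mle (c ^ m) h1
          rw [← pow_succ, mul_inv_cancel_left] at h2
          exact absurd (hm2.trans_le h2) (lt_irrefl _)
        · exact h.symm
      obtain ⟨m, hm⟩ := pw x hx
      obtain ⟨n, hn⟩ := pw y hy
      have hcomm : x * y = y * x := by rw [hm, hn, pow_mul_comm]
      have : c = 1 := by rw [hcdef, hcomm]; group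
      exact absurd hc (by simp [this])
  have pos : ∀ x y : G, 1 < x → 1 < y → Commute x y := by
    intro x y hx hy
    rcases lt_trichotomy (x * y * x⁻¹ * y⁻¹) 1 with h | h | h
    · have := one_lt_inv_of h
      have e : (x * y * x⁻¹ * y⁻¹)⁻¹ = y * x * y⁻¹ * x⁻¹ := by group
      rw [e] at this
      exact absurd this (main y x hy hx)
    · have e : x * y = (x * y * x⁻¹ * y⁻¹) * (y * x) := by group
      show x * y = y * x
      rw [e, h, one_mul]
    · exact absurd h (main x y hx hy)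
  have pos2 : ∀ x y : G, 1 < x → Commute x y := by
    intro x y hx
    rcases lt_trichotomy y 1 with hy | rfl | hy
    · simpa using (pos x _ hx (one_lt_inv_of hy)).inv_right
    · simp
    · exact pos x y hx hy
  rcases lt_trichotomy x 1 with hx | rfl | hx
  · have := (pos2 _ y (one_lt_inv_of hx)).inv_left
    rw [inv_inv] at this
    exact this
  · simp
  · exact pos2 x y hx

variable (C1 : ∀ f g : G, 1 < f → 1 < g → g < f * g ^ 2)
  (C2 : ∀ f g : G, f < 1 → g < 1 → f * g ^ 2 < g)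

include C1 in
theorem cL1 {g x : G} (hg : 1 < g) (hx : x < g) : x * g < g ^ 3 := by
  have := mlt x (C1 _ _ (lt_iff_pos.mp hx) hg)
  convert this using 1
  group

include C2 in
theorem cL1' {g x : G} (hg : g < 1) (hx : g < x) : g ^ 3 < x * g := by
  have h1 : x⁻¹ * g < 1 := by simpa using mlt x⁻¹ hx
  have := mlt x (C2 _ _ h1 hg)
  convert this using 1
  group

include C1 in
theorem cL2 {g x : G} (hg : 1 < g) (hx : g⁻¹ < x) : x⁻¹ < g ^ 2 := by
  have h1 : 1 < g * x := by simpa using mlt g hx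
  have := mlt (x⁻¹ * g⁻¹) (C1 _ _ h1 hg)
  convert this using 1 <;> group

include C2 in
theorem cL2' {g x : G} (hg : g < 1) (hx : x < g⁻¹) : g ^ 2 < x⁻¹ := by
  have h1 : g * x < 1 := by simpa using mlt g hx
  have := mlt (x⁻¹ * g⁻¹) (C2 _ _ h1 hg)
  convert this using 1 <;> group

/-- elements bounded by the powers of `w` -/
def Bd (w : G) (hw : 1 < w) : Subgroup G where
  carrier := {x | ∃ m : ℕ, 0 < m ∧ (w ^ m)⁻¹ < x ∧ x < w ^ m}
  one_mem' := ⟨1, one_pos, by simpa using inv_lt_one_of hw, by simpa using hw⟩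
  mul_mem' := by
    rintro x y ⟨m, hm, hx1, hx2⟩ ⟨n, hn, hy1, hy2⟩
    have hp : 1 < w ^ (m + n) := one_lt_pw hw (by omega)
    have a1 : (w ^ (m + n))⁻¹ < x := (inv_pow_anti hw (by omega)).trans_lt hx1
    have a2 : x < w ^ (m + n) := hx2.trans_le ((pow_smono hw).monotone (by omega))
    have b1 : (w ^ (m + n))⁻¹ < y := (inv_pow_anti hw (by omega)).trans_lt hy1
    have b2 : y < w ^ (m + n) := hy2.trans_le ((pow_smono hw).monotone (by omega))
    refine ⟨(m + n) * 3, by omega, ?_, ?_⟩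
    · rw [pow_mul, ← inv_pow]
      exact (cL1' C2 (inv_lt_one_of hp) a1).trans (mlt x b1)
    · rw [pow_mul]
      exact (mlt x b2).trans (cL1 C1 hp a2)
  inv_mem' := by
    rintro x ⟨m, hm, hx1, hx2⟩
    have hp : 1 < w ^ m := one_lt_pw hw hm
    refine ⟨m * 2, by omega, ?_, ?_⟩
    · rw [pow_mul, ← inv_pow]
      exact cL2' C2 (inv_lt_one_of hp) (by simpa using hx2)
    · rw [pow_mul]
      exact cL2 C1 hp hx1

theorem mem_Bd_of {w x : G} (hw : 1 < w) (h1 : x ≤ w) (h2 : x⁻¹ ≤ w) : x ∈ Bd C1 C2 w hw := by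
  have hp : 1 < w ^ 2 := one_lt_pw hw (by omega)
  have hw2 : w < w ^ 2 := by simpa using pow_lt_succ hw 1
  refine ⟨4, by omega, ?_, h1.trans_lt (by simpa using pow_smono hw (show 1 < 4 by omega))⟩
  have := cL2' C2 (inv_lt_one_of hp) (x := x⁻¹) (by simpa using h2.trans_lt hw2)
  rw [inv_inv, inv_pow, ← pow_mul] at this
  exact this

/-- elements whose powers are bounded above -/
def Sm : Subgroup G where
  carrier := {x | ∃ b, ∀ n : ℤ, x ^ n < b} ∪ {1}
  one_mem' := Or.inr rfl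
  inv_mem' := by
    rintro x (⟨b, hb⟩ | rfl)
    · exact Or.inl ⟨b, fun n => by simpa using hb (-n)⟩
    · exact Or.inr (by simp)
  mul_mem' := by
    rintro x y hx hy
    rcases hx with ⟨b, hb⟩ | rfl
    swap
    · simpa using hy
    rcases hy with ⟨b', hb'⟩ | rfl
    swap
    · exact Or.inl ⟨b, by simpa using hb⟩
    set w := max (max x x⁻¹) (max y y⁻¹) with hwdef
    have hwb : ∀ n : ℕ, w ^ n < max b b' := by
      intro n
      have : w = x ∨ w = x⁻¹ ∨ w = y ∨ w = y⁻¹ := by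
        rcases max_choice (max x x⁻¹) (max y y⁻¹) with h | h <;> rw [hwdef, h]
        · rcases max_choice x x⁻¹ with h | h <;> simp [h]
        · rcases max_choice y y⁻¹ with h | h <;> simp [h]
      rcases this with h | h | h | h <;> rw [h]
      · exact lt_max_of_lt_left (by simpa using hb n)
      · exact lt_max_of_lt_left (by simpa using hb (-n))
      · exact lt_max_of_lt_right (by simpa using hb' n)
      · exact lt_max_of_lt_right (by simpa using hb' (-n))
    have h1 : x ≤ w := (le_max_left _ _).trans (le_max_left _ _)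
    have h2 : x⁻¹ ≤ w := (le_max_right _ _).trans (le_max_left _ _)
    have h3 : y ≤ w := (le_max_left _ _).trans (le_max_right _ _)
    have h4 : y⁻¹ ≤ w := (le_max_right _ _).trans (le_max_right _ _)
    by_cases hw : 1 < w
    · have hxy : x * y ∈ Bd C1 C2 w hw :=
        Subgroup.mul_mem _ (mem_Bd_of C1 C2 hw h1 h2) (mem_Bd_of C1 C2 hw h3 h4)
      refine Or.inl ⟨max b b', fun n => ?_⟩
      obtain ⟨m, -, -, hm⟩ := Subgroup.zpow_mem _ hxy n
      exact hm.trans (hwb m)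
    · push Not at hw
      have : y = 1 := by
        rcases (h3.trans hw).lt_or_eq with h | h
        · exact absurd (one_lt_inv_of h) (not_lt.mpr (h4.trans hw))
        · exact h
      exact Or.inl ⟨b, by simpa [this] using hb⟩

include C1 C2 in
theorem conrad_perfect [hfg : Group.FG G] (hp : commutator G = ⊤) : Subsingleton G := by
  classical
  by_contra hs
  rw [not_subsingleton_iff_nontrivial] at hs
  obtain ⟨S, hS⟩ := hfg.out
  have hne : ∃ s ∈ S, s ≠ 1 := by
    by_contra hc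
    push Not at hc
    have : Subgroup.closure (S : Set G) ≤ ⊥ := by
      rw [Subgroup.closure_le]
      intro s hs; exact hc s hs
    rw [hS] at this
    exact top_ne_bot (le_bot_iff.mp this)
  obtain ⟨s0, hs0, hs1⟩ := hne
  obtain ⟨s, hsS, hmax⟩ := S.exists_max_image (fun s => max s s⁻¹) ⟨s0, hs0⟩
  set a := max s s⁻¹ with hadef
  have ha : 1 < a := by
    refine lt_of_lt_of_le ?_ (hmax s0 hs0)
    rcases lt_or_gt_of_ne hs1 with h | h
    · exact lt_max_of_lt_right (one_lt_inv_of h)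
    · exact lt_max_of_lt_left h
  have hall : ∀ g, g ∈ Bd C1 C2 a ha := by
    have : Subgroup.closure (S : Set G) ≤ Bd C1 C2 a ha := by
      rw [Subgroup.closure_le]
      intro t ht
      exact mem_Bd_of C1 C2 ha ((le_max_left _ _).trans (hmax t ht))
        ((le_max_right _ _).trans (hmax t ht))
    intro g
    exact this (hS ▸ Subgroup.mem_top g)
  set K := Sm C1 C2 with hK
  have memK : ∀ x, x ∈ K ↔ ∃ b, ∀ n : ℤ, x ^ n < b := by
    intro x
    constructor
    · rintro (h | rfl)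
      · exact h
      · exact ⟨a, by simpa using ha⟩
    · exact Or.inl
  have haK : a ∉ K := by
    rw [memK]
    rintro ⟨b, hb⟩
    obtain ⟨m, -, -, hm⟩ := hall b
    exact absurd (hm.trans (by simpa using hb m)) (lt_irrefl _)
  haveI : K.Normal := by
    refine ⟨fun x hx z => ?_⟩
    rw [memK] at hx ⊢
    obtain ⟨b, hb⟩ := hx
    obtain ⟨m, hm0, -, hm⟩ := hall (max b z⁻¹)
    refine ⟨z * (a ^ m) ^ 3, fun n => ?_⟩
    rw [conj_zpow, mul_assoc]
    refine mlt z ?_
    exact (mlt _ ((le_max_right _ _).trans_lt hm)).trans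
      (cL1 C1 (one_lt_pw ha hm0) ((hb n).trans ((le_max_left _ _).trans_lt hm)))
  have unb : ∀ p, 1 < p → p ∉ K → ∀ y, ∃ n : ℕ, y < p ^ n := by
    intro p hp hpK y
    rw [memK] at hpK
    push Not at hpK
    obtain ⟨n, hn⟩ := hpK y
    rcases le_or_gt 0 n with h | h
    · lift n to ℕ using h
      exact ⟨n + 1, hn.trans_lt (by simpa using pow_lt_succ hp n)⟩
    · obtain ⟨k, hk⟩ : ∃ k : ℕ, n = -(k : ℤ) := ⟨n.natAbs, by omega⟩
      subst hk
      refine ⟨1, hn.trans_lt ?_⟩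
      have := inv_pow_anti hp (Nat.zero_le k)
      simpa using this.trans_lt (by simpa using hp)
  have conv : ∀ c ∈ K, ∀ p, 1 < p → p ∉ K → c < p := by
    intro c hc p hp hpK
    by_contra h
    push Not at h
    have hc1 : 1 < c := hp.trans_le h
    have hm := mem_Bd_of C1 C2 hc1 h ((inv_lt_one_of hp).trans hc1).le
    apply hpK
    rw [memK] at hc ⊢
    obtain ⟨b, hb⟩ := hc
    refine ⟨b, fun n => ?_⟩
    obtain ⟨m, -, -, hm⟩ := Subgroup.zpow_mem _ hm n
    exact hm.trans (by simpa using hb m)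
  have hcone : Cone ((QuotientGroup.mk : G → G ⧸ K) '' {p | 1 < p ∧ p ∉ K}) := by
    refine ⟨?_, ?_, ?_⟩
    · rintro _ ⟨p, ⟨hp, hpK⟩, rfl⟩ _ ⟨q, ⟨hq, -⟩, rfl⟩
      refine ⟨p * q, ⟨hp.trans (lt_mul_pos p hq), fun h => ?_⟩, rfl⟩
      exact absurd ((conv _ h p hp hpK).trans (lt_mul_pos p hq)) (lt_irrefl _)
    · rintro ⟨p, ⟨-, hpK⟩, e⟩
      exact hpK ((QuotientGroup.eq_one_iff p).mp e)
    · intro x hx
      obtain ⟨x, rfl⟩ := QuotientGroup.mk_surjective x
      have hxK : x ∉ K := fun h => hx ((QuotientGroup.eq_one_iff x).mpr h)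
      have hx1 : x ≠ 1 := fun h => hxK (h ▸ K.one_mem)
      rcases lt_or_gt_of_ne hx1 with h | h
      · exact Or.inr ⟨x⁻¹, ⟨one_lt_inv_of h, fun h' => hxK (by simpa using K.inv_mem h')⟩, rfl⟩
      · exact Or.inl ⟨x, ⟨h, hxK⟩, rfl⟩
  have hcomm : ∀ x y : G ⧸ K, x * y = y * x := by
    letI := hcone.ord
    haveI := hcone.ord_mono
    refine holder ?_
    intro p hp y
    rw [hcone.ord_lt, inv_one, one_mul] at hp
    obtain ⟨p, ⟨hp, hpK⟩, rfl⟩ := hp
    obtain ⟨y, rfl⟩ := QuotientGroup.mk_surjective y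
    obtain ⟨n, hn⟩ := unb p hp hpK y
    refine ⟨n + 1, ?_⟩
    rw [hcone.ord_lt, pow_succ, ← mul_assoc]
    by_cases h : y⁻¹ * p ^ n ∈ K
    · have : ((y : G ⧸ K))⁻¹ * (p : G ⧸ K) ^ n = 1 := (QuotientGroup.eq_one_iff _).mpr h
      rw [this, one_mul]
      exact ⟨p, ⟨hp, hpK⟩, rfl⟩
    · exact hcone.mul _ ⟨y⁻¹ * p ^ n, ⟨lt_iff_pos.mp hn, h⟩, rfl⟩ _ ⟨p, ⟨hp, hpK⟩, rfl⟩
  have : commutator G ≤ K := by
    rw [commutator_def, Subgroup.commutator_le]
    intro x _ y _
    rw [← QuotientGroup.eq_one_iff, commutatorElement_def]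
    simp only [QuotientGroup.mk_mul, QuotientGroup.mk_inv]
    rw [hcomm (x : G ⧸ K)]
    group
  exact haK (this (hp ▸ Subgroup.mem_top a))

theorem bad_conj {f g : G} (hf : 1 < f) (hg : 1 < g) (h : ¬ g < f * g ^ 2) {n : ℕ} (hn : 0 < n) :
    ((f * g) ^ n)⁻¹ * f * (f * g) ^ n < 1 := by
  push Not at h
  have h1 : ∀ k : ℕ, (f * g) ^ k * g ≤ g := by
    intro k
    induction k with
    | zero => simp
    | succ k ih =>
      rw [pow_succ, mul_assoc]
      refine (mle _ ?_).trans ih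
      simpa [pow_two, mul_assoc] using h
  have h2 : (f * g) ^ n < g := (lt_mul_pos _ hg).trans_le (h1 n)
  have hh : 1 < f * g := hf.trans (lt_mul_pos f hg)
  have h3 : f * g ≤ (f * g) ^ n := by simpa using (pow_smono hh).monotone (show 1 ≤ n from hn)
  have := mlt ((f * g) ^ n)⁻¹ ((mlt f h2).trans_le h3)
  simpa [mul_assoc] using this

end Ord

section Mean

variable {G : Type} [Group G]

theorem Cone.conj {P : Set G} (h : Cone P) (c : G) : Cone {g | c⁻¹ * g * c ∈ P} := by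
  have := h.comap (MulAut.conj c⁻¹).toMonoidHom (MulAut.conj c⁻¹).injective
  simpa using this

theorem mean_wander (μ : Set G → ℝ) (h0 : ∀ A, 0 ≤ μ A) (h1 : μ Set.univ = 1)
    (hadd : ∀ A B : Set G, Disjoint A B → μ (A ∪ B) = μ A + μ B)
    (hinv : ∀ (g : G) (A : Set G), μ ((fun x => g * x) '' A) = μ A)
    (A : Set G) (h : G) (hA : ∀ c ∈ A, ∀ n : ℕ, 0 < n → h ^ n * c ∉ A) : μ A = 0 := by
  have hle : ∀ B, μ B ≤ 1 := by
    intro B
    have := hadd B Bᶜ disjoint_compl_right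
    rw [Set.union_compl_self, h1] at this
    linarith [h0 Bᶜ]
  have hemp : μ ∅ = 0 := by
    have := hadd ∅ ∅ (by simp)
    rw [Set.union_self] at this
    linarith
  have key : ∀ n : ℕ, μ {x | ∃ i < n, ∃ c ∈ A, x = h ^ i * c} = n * μ A := by
    intro n
    induction n with
    | zero => simpa using hemp
    | succ n ih =>
      have e : {x | ∃ i < n + 1, ∃ c ∈ A, x = h ^ i * c} =
          {x | ∃ i < n, ∃ c ∈ A, x = h ^ i * c} ∪ (fun x => h ^ n * x) '' A := by
        ext x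
        constructor
        · rintro ⟨i, hi, c, hc, rfl⟩
          rcases Nat.lt_succ_iff_lt_or_eq.mp hi with h | rfl
          · exact Or.inl ⟨i, h, c, hc, rfl⟩
          · exact Or.inr ⟨c, hc, rfl⟩
        · rintro (⟨i, hi, c, hc, rfl⟩ | ⟨c, hc, rfl⟩)
          · exact ⟨i, by omega, c, hc, rfl⟩
          · exact ⟨n, by omega, c, hc, rfl⟩
      rw [e, hadd, ih, hinv]
      · push_cast; ring
      · rw [Set.disjoint_left]
        rintro _ ⟨i, hi, c, hc, rfl⟩ ⟨c', hc', e⟩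
        obtain ⟨k, rfl⟩ := Nat.exists_eq_add_of_lt hi
        simp only at e
        rw [add_assoc, pow_add, mul_assoc] at e
        exact hA c' hc' (k + 1) (by omega) (by rw [mul_left_cancel e]; exact hc)
  by_contra hne
  have hpos : 0 < μ A := lt_of_le_of_ne (h0 A) (Ne.symm hne)
  obtain ⟨n, hn⟩ := exists_nat_gt (1 / μ A)
  have := hle {x | ∃ i < n, ∃ c ∈ A, x = h ^ i * c}
  rw [key, ← le_div_iff₀ hpos] at this
  linarith

theorem mean_avoid (μ : Set G → ℝ) (h0 : ∀ A, 0 ≤ μ A) (h1 : μ Set.univ = 1)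
    (hadd : ∀ A B : Set G, Disjoint A B → μ (A ∪ B) = μ A + μ B)
    {ι : Type} (s : Finset ι) (A : ι → Set G) (hA : ∀ i, μ (A i) = 0) :
    ∃ c, ∀ i ∈ s, c ∉ A i := by
  classical
  have hemp : μ ∅ = 0 := by
    have := hadd ∅ ∅ (by simp)
    rw [Set.union_self] at this
    linarith
  have key : μ {c | ∃ i ∈ s, c ∈ A i} = 0 := by
    induction s using Finset.induction_on with
    | empty => simpa using hemp
    | insert j s hj ih =>
      have e : {c | ∃ i ∈ insert j s, c ∈ A i} =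
          {c | ∃ i ∈ s, c ∈ A i} ∪ (A j \ {c | ∃ i ∈ s, c ∈ A i}) := by
        ext c; simp only [Finset.mem_insert, Set.mem_setOf_eq, Set.mem_union, Set.mem_diff]
        constructor
        · rintro ⟨i, rfl | hi, hc⟩
          · by_cases h : ∃ i ∈ s, c ∈ A i
            · exact Or.inl h
            · exact Or.inr ⟨hc, h⟩
          · exact Or.inl ⟨i, hi, hc⟩
        · rintro (⟨i, hi, hc⟩ | ⟨hc, -⟩)
          · exact ⟨i, Or.inr hi, hc⟩
          · exact ⟨j, Or.inl rfl, hc⟩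
      rw [e, hadd _ _ Set.disjoint_sdiff_right, ih]
      have h2 := hadd (A j \ {c | ∃ i ∈ s, c ∈ A i}) (A j ∩ {c | ∃ i ∈ s, c ∈ A i})
        Set.disjoint_sdiff_inter
      rw [Set.diff_union_inter, hA j] at h2
      linarith [h0 (A j \ {c | ∃ i ∈ s, c ∈ A i}), h0 (A j ∩ {c | ∃ i ∈ s, c ∈ A i})]
  by_contra hc
  push Not at hc
  have : {c | ∃ i ∈ s, c ∈ A i} = Set.univ := Set.eq_univ_of_forall hc
  rw [this, h1] at key
  exact one_ne_zero key

/-- Witte Morris: a finitely generated perfect amenable right-orderable group is trivial -/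
theorem ro_fol_perfect (hro : RO G) (hF : HJI.Fol.Fol G) [Group.FG G] (hp : commutator G = ⊤) :
    Subsingleton G := by
  classical
  obtain ⟨P, hP⟩ := hro
  obtain ⟨μ, h0, h1, hadd, hinv⟩ := HJI.Fol.mean_of_fol hF
  have null : ∀ (P : Set G), Cone P → ∀ f g : G,
      μ {c | c⁻¹ * f * c ∈ P ∧ c⁻¹ * g * c ∈ P ∧ c⁻¹ * (g⁻¹ * (f * g ^ 2)) * c ∉ P} = 0 := by
    intro P hP f g
    refine mean_wander μ h0 h1 hadd hinv _ (f * g) ?_
    rintro c ⟨a1, a2, a3⟩ n hn ⟨b1, -, -⟩
    have hc := hP.conj c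
    letI := hc.ord
    haveI := hc.ord_mono
    have := bad_conj (f := f) (g := g) (by simpa [hc.ord_lt] using a1)
      (by simpa [hc.ord_lt] using a2) a3 hn
    rw [hc.ord_lt, mul_one] at this
    refine hc.asymm this ?_
    simpa [mul_assoc] using b1
  have hex : ∀ A : Finset (G × G), ∃ c : G, ∀ p ∈ A,
      (c⁻¹ * p.1 * c ∈ P → c⁻¹ * p.2 * c ∈ P → c⁻¹ * (p.2⁻¹ * (p.1 * p.2 ^ 2)) * c ∈ P) ∧
      ((c⁻¹ * p.1 * c)⁻¹ ∈ P → (c⁻¹ * p.2 * c)⁻¹ ∈ P →
        (c⁻¹ * (p.2⁻¹ * (p.1 * p.2 ^ 2)) * c)⁻¹ ∈ P) := by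
    intro A
    obtain ⟨c, hc⟩ := mean_avoid μ h0 h1 hadd (A ×ˢ (Finset.univ : Finset Bool))
      (fun i => if i.2 then {c | c⁻¹ * i.1.1 * c ∈ P ∧ c⁻¹ * i.1.2 * c ∈ P ∧
          c⁻¹ * (i.1.2⁻¹ * (i.1.1 * i.1.2 ^ 2)) * c ∉ P}
        else {c | c⁻¹ * i.1.1 * c ∈ {a | a⁻¹ ∈ P} ∧ c⁻¹ * i.1.2 * c ∈ {a | a⁻¹ ∈ P} ∧
          c⁻¹ * (i.1.2⁻¹ * (i.1.1 * i.1.2 ^ 2)) * c ∉ {a | a⁻¹ ∈ P}}) (by
        rintro ⟨p, b⟩
        cases b
        · exact null _ hP.inv _ _
        · exact null _ hP _ _)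
    refine ⟨c, fun p hp => ⟨fun a1 a2 => ?_, fun a1 a2 => ?_⟩⟩
    · by_contra a3
      exact hc (p, true) (by simp [hp]) ⟨a1, a2, a3⟩
    · by_contra a3
      exact hc (p, false) (by simp [hp]) ⟨a1, a2, a3⟩
  choose c hc using hex
  obtain ⟨Q, hQ⟩ := exists_limit fun A => {g | (c A)⁻¹ * g * c A ∈ P}
  have hQc : Cone Q := by
    refine ⟨fun a ha b hb => ?_, fun h => ?_, fun a ha => ?_⟩
    · obtain ⟨A, -, hS⟩ := hQ {a, b, a * b} ∅
      rw [hS _ (by simp)] at ha hb ⊢
      exact (hP.conj _).mul a ha b hb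
    · obtain ⟨A, -, hS⟩ := hQ {1} ∅
      exact (hP.conj _).one ((hS _ (by simp)).mp h)
    · obtain ⟨A, -, hS⟩ := hQ {a, a⁻¹} ∅
      rw [hS a (by simp), hS a⁻¹ (by simp)]
      exact (hP.conj _).tri a ha
  letI := hQc.ord
  haveI := hQc.ord_mono
  refine conrad_perfect (fun f g hf hg => ?_) (fun f g hf hg => ?_) hp
  · rw [hQc.ord_lt] at hf hg ⊢
    rw [inv_one, one_mul] at hf hg
    obtain ⟨A, hA, hS⟩ := hQ {f, g, g⁻¹ * (f * g ^ 2)} {(f, g)}
    rw [hS _ (by simp)] at hf hg ⊢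
    exact (hc A (f, g) (hA (by simp))).1 hf hg
  · rw [hQc.ord_lt] at hf hg ⊢
    rw [mul_one] at hf hg
    obtain ⟨A, hA, hS⟩ := hQ {f⁻¹, g⁻¹, (f * g ^ 2)⁻¹ * g} {(f, g)}
    rw [hS _ (by simp)] at hf hg ⊢
    have := (hc A (f, g) (hA (by simp))).2 (by simpa [mul_assoc] using hf)
      (by simpa [mul_assoc] using hg)
    simpa [mul_assoc] using this

end Mean

end Pool.Agent.H387Z.QI
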