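import Mathlib
import Pool.Agent.H387Z.QI.Conrad

set_option autoImplicit false
set_option linter.style.haveILetI false

namespace Pool.Agent.H387Z.QI

universe u v

open Function

def Imp (K : Type) [Group K] {F : Type} [Group F] (U : Finset F) (w : F) : Prop :=
  ∀ φ : F →* K, (∀ u ∈ U, φ u = 1) → φ w = 1

def Mod (S : Set QuasiIdentity) (K : Type) [Group K] : Prop := ∀ q ∈ S, q.Holds K

theorem lift_comp_apply {α : Type} {G : Type u} {H : Type v} [Group G] [Group H] (f : G →* H)
    (x : α → G) (w : FreeGroup α) : FreeGroup.lift (fun i => f (x i)) w = f (FreeGroup.lift x w) := by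
  have : FreeGroup.lift (fun i => f (x i)) = f.comp (FreeGroup.lift x) := by
    ext i; simp
  rw [this]; rfl

theorem lift_of_apply {α : Type} {G : Type u} [Group G] (f : FreeGroup α →* G) (w : FreeGroup α) :
    FreeGroup.lift (fun i => f (FreeGroup.of i)) w = f w := by
  have : FreeGroup.lift (fun i => f (FreeGroup.of i)) = f := by
    ext i; simp
  rw [this]

theorem QuasiIdentity.Holds.of_injective {q : QuasiIdentity} {G : Type u} {H : Type v} [Group G]
    [Group H] (h : q.Holds G) (f : H →* G) (hf : Injective f) : q.Holds H := by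
  intro x hx
  apply hf
  rw [map_one, ← lift_comp_apply]
  exact h _ fun v hv => by rw [lift_comp_apply, hx v hv, map_one]

open Classical in
theorem holds_iff_imp (q : QuasiIdentity) (K : Type) [Group K] :
    q.Holds K ↔ Imp K q.prem.toFinset q.concl := by
  constructor
  · intro h φ hφ
    rw [← lift_of_apply]
    exact h _ fun v hv => by rw [lift_of_apply]; exact hφ v (List.mem_toFinset.mpr hv)
  · intro h x hx
    exact h _ fun v hv => hx v (List.mem_toFinset.mp hv)

theorem exists_qi {α : Type} [Finite α] (U : Finset (FreeGroup α)) (w : FreeGroup α) :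
    ∃ q : QuasiIdentity, ∀ (K : Type) [Group K], q.Holds K ↔ Imp K U w := by
  obtain ⟨m, ⟨e⟩⟩ := Finite.exists_equiv_fin α
  refine ⟨⟨m, U.toList.map (FreeGroup.map e), FreeGroup.map e w⟩, fun K _ => ⟨?_, ?_⟩⟩
  · intro h φ hφ
    have key : ∀ v, FreeGroup.lift (fun i => φ (FreeGroup.of (e.symm i))) (FreeGroup.map e v) =
        φ v := by
      intro v
      have : (FreeGroup.lift (fun i => φ (FreeGroup.of (e.symm i)))).comp (FreeGroup.map e) = φ := by
        ext i; simp
      exact DFunLike.congr_fun this v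
    rw [← key]
    refine h _ fun v hv => ?_
    obtain ⟨v', hv', rfl⟩ := List.mem_map.mp hv
    rw [key]
    exact hφ v' (Finset.mem_toList.mp hv')
  · intro h x hx
    exact h ((FreeGroup.lift x).comp (FreeGroup.map e)) fun v hv =>
      hx _ (List.mem_map_of_mem (Finset.mem_toList.mpr hv))

theorem exists_conj (p q : QuasiIdentity) :
    ∃ r : QuasiIdentity, ∀ (K : Type) [Group K], r.Holds K ↔ p.Holds K ∧ q.Holds K := by
  classical
  obtain ⟨r, hr⟩ := exists_qi (α := Fin p.m ⊕ Fin q.m)
    (p.prem.toFinset.image (FreeGroup.map Sum.inl) ∪ q.prem.toFinset.image (FreeGroup.map Sum.inr))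
    (FreeGroup.map Sum.inl p.concl * FreeGroup.map Sum.inr q.concl)
  refine ⟨r, fun K _ => (hr K).trans ?_⟩
  have k1 : ∀ (x : Fin p.m → K) (y : Fin q.m → K) (v : FreeGroup (Fin p.m)),
      FreeGroup.lift (Sum.elim x y) (FreeGroup.map Sum.inl v) = FreeGroup.lift x v := by
    intro x y v
    have : (FreeGroup.lift (Sum.elim x y)).comp (FreeGroup.map Sum.inl) = FreeGroup.lift x := by
      ext i; simp
    exact DFunLike.congr_fun this v
  have k2 : ∀ (x : Fin p.m → K) (y : Fin q.m → K) (v : FreeGroup (Fin q.m)),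
      FreeGroup.lift (Sum.elim x y) (FreeGroup.map Sum.inr v) = FreeGroup.lift y v := by
    intro x y v
    have : (FreeGroup.lift (Sum.elim x y)).comp (FreeGroup.map Sum.inr) = FreeGroup.lift y := by
      ext i; simp
    exact DFunLike.congr_fun this v
  have k0 : ∀ {α : Type} (v : FreeGroup α), FreeGroup.lift (fun _ => (1 : K)) v = 1 := by
    intro α v
    have : FreeGroup.lift (fun _ : α => (1 : K)) = 1 := by ext i; simp
    rw [this]; rfl
  have k3 : ∀ (x : Fin p.m → K) (y : Fin q.m → K), (∀ v ∈ p.prem, FreeGroup.lift x v = 1) →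
      (∀ v ∈ q.prem, FreeGroup.lift y v = 1) →
      ∀ u ∈ p.prem.toFinset.image (FreeGroup.map Sum.inl) ∪
        q.prem.toFinset.image (FreeGroup.map Sum.inr), FreeGroup.lift (Sum.elim x y) u = 1 := by
    intro x y hx hy u hu
    rcases Finset.mem_union.mp hu with hu | hu <;> obtain ⟨v, hv, rfl⟩ := Finset.mem_image.mp hu
    · rw [k1]; exact hx v (List.mem_toFinset.mp hv)
    · rw [k2]; exact hy v (List.mem_toFinset.mp hv)
  constructor
  · intro h
    constructor
    · intro x hx
      have := h _ (k3 x (fun _ => 1) hx fun v _ => k0 v)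
      rwa [map_mul, k1, k2, k0, mul_one] at this
    · intro y hy
      have := h _ (k3 (fun _ => 1) y (fun v _ => k0 v) hy)
      rwa [map_mul, k1, k2, k0, one_mul] at this
  · rintro ⟨hp, hq⟩ φ hφ
    have h1 := (holds_iff_imp p K).mp hp (φ.comp (FreeGroup.map Sum.inl)) fun v hv =>
      hφ _ (Finset.mem_union_left _ (Finset.mem_image_of_mem _ (by convert hv)))
    have h2 := (holds_iff_imp q K).mp hq (φ.comp (FreeGroup.map Sum.inr)) fun v hv =>
      hφ _ (Finset.mem_union_right _ (Finset.mem_image_of_mem _ (by convert hv)))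
    rw [map_mul]
    exact (congrArg₂ (· * ·) h1 h2).trans (one_mul 1)

theorem exists_conj_fin {X : Set QuasiIdentity} (hX : X.Finite) :
    ∃ r : QuasiIdentity, ∀ (K : Type) [Group K], r.Holds K ↔ Mod X K := by
  induction X, hX using Set.Finite.induction_on with
  | empty => exact ⟨⟨0, [], 1⟩, fun K _ => ⟨fun _ q hq => hq.elim, fun _ x _ => map_one _⟩⟩
  | @insert q X _ _ ih =>
    obtain ⟨r, hr⟩ := ih
    obtain ⟨s, hs⟩ := exists_conj q r
    refine ⟨s, fun K _ => ?_⟩
    rw [hs, hr]
    simp [Mod]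

instance : Countable QuasiIdentity :=
  Injective.countable (f := fun q : QuasiIdentity =>
    (⟨q.m, q.prem, q.concl⟩ : Σ m : ℕ, List (FreeGroup (Fin m)) × FreeGroup (Fin m))) (by
      rintro ⟨m, p, c⟩ ⟨m', p', c'⟩ h
      obtain ⟨rfl, h⟩ := Sigma.mk.inj_iff.mp h
      obtain ⟨rfl, rfl⟩ := Prod.mk.inj (eq_of_heq h)
      rfl)

theorem exists_lift_hom {α : Type} {F H : Type} [Group F] [Group H] (p : F →* H)
    (hp : Surjective p) (s : FreeGroup α →* H) : ∃ t : FreeGroup α →* F, ∀ w, p (t w) = s w := by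
  choose x hx using fun i => hp (s (FreeGroup.of i))
  refine ⟨FreeGroup.lift x, fun w => ?_⟩
  rw [← lift_comp_apply]
  simp only [hx, lift_of_apply]

theorem compactness (T : Set QuasiIdentity) (τ : QuasiIdentity)
    (h : ∀ (K : Type) [Group K], Mod T K → τ.Holds K) :
    ∃ T' ⊆ T, T'.Finite ∧ ∀ (K : Type) [Group K], Mod T' K → τ.Holds K := by
  classical
  let U := τ.prem.toFinset
  let N : Subgroup (FreeGroup (Fin τ.m)) :=
    { carrier := {g | ∃ T' ⊆ T, T'.Finite ∧ ∀ (K : Type) [Group K], Mod T' K → Imp K U g}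
      one_mem' := ⟨∅, by simp, by simp, fun K _ _ φ _ => map_one _⟩
      mul_mem' := by
        rintro a b ⟨A, hA, hA', ha⟩ ⟨B, hB, hB', hb⟩
        refine ⟨A ∪ B, Set.union_subset hA hB, hA'.union hB', fun K _ hK φ hφ => ?_⟩
        rw [map_mul, ha K (fun q hq => hK q (Or.inl hq)) φ hφ,
          hb K (fun q hq => hK q (Or.inr hq)) φ hφ, one_mul]
      inv_mem' := by
        rintro a ⟨A, hA, hA', ha⟩
        exact ⟨A, hA, hA', fun K _ hK φ hφ => by rw [map_inv, ha K hK φ hφ, inv_one]⟩ }
  haveI : N.Normal := ⟨by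
    rintro a ⟨A, hA, hA', ha⟩ g
    exact ⟨A, hA, hA', fun K _ hK φ hφ => by simp [ha K hK φ hφ]⟩⟩
  have hM : Mod T (FreeGroup (Fin τ.m) ⧸ N) := by
    intro q hq
    rw [holds_iff_imp]
    intro s hs
    obtain ⟨t, ht⟩ := exists_lift_hom (QuotientGroup.mk' N) (QuotientGroup.mk'_surjective N) s
    have h1 : ∀ v ∈ q.prem.toFinset, t v ∈ N := fun v hv =>
      (QuotientGroup.eq_one_iff _).mp ((ht v).trans (hs v hv))
    choose! A hA hA' ha using h1
    rw [← ht]
    refine (QuotientGroup.eq_one_iff _).mpr ⟨insert q (⋃ v ∈ q.prem.toFinset, A v), ?_, ?_, ?_⟩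
    · exact Set.insert_subset hq (Set.iUnion₂_subset hA)
    · exact (Set.Finite.biUnion (Finset.finite_toSet _) hA').insert q
    · intro K _ hK φ hφ
      exact (holds_iff_imp q K).mp (hK q (Set.mem_insert _ _)) (φ.comp t) fun v hv =>
        ha v hv K (fun p hp => hK p (Set.mem_insert_of_mem _ (Set.mem_biUnion hv hp))) φ hφ
  have := (holds_iff_imp τ _).mp (h _ hM) (QuotientGroup.mk' N) fun u hu =>
    (QuotientGroup.eq_one_iff _).mpr ⟨∅, by simp, by simp, fun K _ _ φ hφ => hφ u hu⟩
  obtain ⟨A, hA, hA', ha⟩ := (QuotientGroup.eq_one_iff _).mp this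
  exact ⟨A, hA, hA', fun K _ hK => (holds_iff_imp τ K).mpr (ha K hK)⟩

theorem exists_range_of_fg {G : Type u} [Group G] {H : Subgroup G} (h : H.FG) :
    ∃ (k : ℕ) (s : FreeGroup (Fin k) →* G), s.range = H := by
  obtain ⟨S, rfl⟩ := h
  refine ⟨S.card, FreeGroup.lift fun i => (S.equivFin.symm i : G), ?_⟩
  rw [FreeGroup.range_lift_eq_closure]
  congr 1
  ext x
  constructor
  · rintro ⟨i, rfl⟩; exact (S.equivFin.symm i).2
  · intro hx; exact ⟨S.equivFin ⟨x, hx⟩, by simp⟩

theorem fg_range {G : Type u} [Group G] {k : ℕ} (s : FreeGroup (Fin k) →* G) : s.range.FG :=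
  (Group.fg_iff_subgroup_fg _).mp inferInstance

theorem closure_gen {Γ : Type} [Group Γ] {k : ℕ} (ψ : FreeGroup (Fin k) →* Γ) (h : Surjective ψ) :
    Subgroup.closure (Set.range fun i => ψ (FreeGroup.of i)) = ⊤ := by
  rw [← FreeGroup.range_lift_eq_closure, MonoidHom.range_eq_top]
  intro y
  obtain ⟨w, rfl⟩ := h y
  exact ⟨w, lift_of_apply _ _⟩

theorem ni_range_iff {F H : Type} [Group F] [Group H] (s : F →* H) :
    NI s.range ↔ ∀ g : F →* Multiplicative ℤ, s.ker ≤ g.ker → ∀ w, g w = 1 := by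
  constructor
  · intro h g hg w
    have := h (s.rangeRestrict.liftOfRightInverse (surjInv s.rangeRestrict_surjective)
      (rightInverse_surjInv _) ⟨g, by rwa [MonoidHom.ker_rangeRestrict]⟩) (s.rangeRestrict w)
    rwa [MonoidHom.liftOfRightInverse_comp_apply] at this
  · rintro h f ⟨_, w, rfl⟩
    refine h (f.comp s.rangeRestrict) (fun v hv => ?_) w
    have : s.rangeRestrict v = 1 := Subtype.ext hv
    rw [MonoidHom.mem_ker, MonoidHom.comp_apply, this, map_one]

theorem ni_witness {H : Type} [Group H] {k : ℕ} (s : FreeGroup (Fin k) →* H) (h : NI s.range) :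
    ∃ U : Finset (FreeGroup (Fin k)), (∀ u ∈ U, s u = 1) ∧
      ∀ (K : Type) [Group K] (φ : FreeGroup (Fin k) →* K), (∀ u ∈ U, φ u = 1) → NI φ.range := by
  classical
  let e : FreeGroup (Fin k) →* Multiplicative (Fin k → ℤ) :=
    FreeGroup.lift fun i => Multiplicative.ofAdd (Pi.single i 1)
  let S : Set (Fin k → ℤ) := {v | ∃ u, s u = 1 ∧ (e u).toAdd = v}
  obtain ⟨S', hS', hsp⟩ := (Submodule.fg_span_iff_fg_span_finset_subset (R := ℤ) S).mp
    (IsNoetherian.noetherian _)
  choose! r hr1 hr2 using fun v (hv : v ∈ S') => hS' hv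
  refine ⟨S'.image r, fun u hu => ?_, fun K _ φ hφ => ?_⟩
  · obtain ⟨v, hv, rfl⟩ := Finset.mem_image.mp hu
    exact hr1 v hv
  · rw [ni_range_iff] at h ⊢
    intro g hg
    let lam : (Fin k → ℤ) →ₗ[ℤ] ℤ :=
      Fintype.linearCombination ℤ fun i => (g (FreeGroup.of i)).toAdd
    have hl : ∀ w, lam (e w).toAdd = (g w).toAdd := by
      intro w
      have : (AddMonoidHom.toMultiplicative lam.toAddMonoidHom).comp e = g := by
        ext i
        simp [e, lam]
      rw [← this]; rfl
    refine h g fun u hu => ?_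
    have h1 : (e u).toAdd ∈ Submodule.span ℤ (S' : Set (Fin k → ℤ)) :=
      hsp ▸ Submodule.subset_span ⟨u, hu, rfl⟩
    have h2 : Submodule.span ℤ (S' : Set (Fin k → ℤ)) ≤ LinearMap.ker lam := by
      rw [Submodule.span_le]
      intro v hv
      have := hg (hφ _ (Finset.mem_image_of_mem r hv))
      rw [SetLike.mem_coe, LinearMap.mem_ker, ← hr2 v hv, hl, this]; rfl
    have h3 := h2 h1
    rw [LinearMap.mem_ker, hl] at h3
    exact h3

abbrev Cls : Type 1 := (G : Type) → [Group G] → Prop

structure Nice (C : Cls) : Prop where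
  sub : ∀ (G H : Type) [Group G] [Group H] (f : H →* G), Injective f → C G → C H
  quasi : ∀ (F H : Type) [Group F] [Group H] (p : F →* H), Surjective p →
    (∀ (U : Finset F) (w : F), (∀ u ∈ U, p u = 1) →
      (∀ (K : Type) [Group K], C K → Imp K U w) → p w = 1) → C H
  ext : ∀ (G Q : Type) [Group G] [Group Q] (p : G →* Q), C Q → LocallyIndicable p.ker → C G
  li : ∀ (G : Type) [Group G], LocallyIndicable G → C G
  perfect : ∀ (G : Type) [Group G], C G → HJI.Fol.Fol G → Group.FG G → commutator G = ⊤ →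
    Subsingleton G

theorem nice_li : Nice fun G _ => LocallyIndicable G where
  sub _ _ _ _ f hf h := li_of_injective h f hf
  quasi F H _ _ p hp h := by
    classical
    rw [li_iff]
    intro S hS hN
    obtain ⟨k, s, rfl⟩ := exists_range_of_fg hS
    obtain ⟨t, ht⟩ := exists_lift_hom p hp s
    obtain ⟨U, hU, hU'⟩ := ni_witness s hN
    rw [eq_bot_iff]
    rintro _ ⟨w, rfl⟩
    rw [← ht]
    refine h (U.image t) _ (fun u hu => ?_) fun K _ hK φ hφ => ?_
    · obtain ⟨v, hv, rfl⟩ := Finset.mem_image.mp hu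
      rw [ht, hU v hv]
    · have := li_iff.mp hK _ (fg_range (φ.comp t))
        (hU' K (φ.comp t) fun u hu => hφ _ (Finset.mem_image_of_mem _ hu))
      exact Subgroup.mem_bot.mp (this ▸ ⟨w, rfl⟩)
  ext _ _ _ _ p h1 h2 := li_ext p h1 h2
  li _ _ h := h
  perfect G _ h _ hfg hp := by
    have : (⊤ : Subgroup G) = ⊥ := by
      refine li_iff.mp h ⊤ hfg.out (NI.of_surjective (fun f g => ?_)
        (Subgroup.topEquiv (G := G)).symm.toMonoidHom (Subgroup.topEquiv (G := G)).symm.surjective)
      exact Abelianization.commutator_subset_ker f (hp ▸ Subgroup.mem_top g)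
    exact ⟨fun a b => by
      rw [Subgroup.mem_bot.mp (this ▸ Subgroup.mem_top a : a ∈ (⊥ : Subgroup G)),
        Subgroup.mem_bot.mp (this ▸ Subgroup.mem_top b : b ∈ (⊥ : Subgroup G))]⟩

theorem nice_ro : Nice fun G _ => RO G where
  sub _ _ _ _ f hf h := h.of_injective f hf
  quasi F H _ _ p hp h := by
    classical
    have key : ∀ (U W : Finset F), (∀ u ∈ U, p u = 1) → ∃ (K : Type) (_ : Group K) (φ : F →* K),
        RO K ∧ (∀ u ∈ U, φ u = 1) ∧ ∀ w ∈ W, p w ≠ 1 → φ w ≠ 1 := by
      intro U W hU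
      induction W using Finset.induction_on with
      | empty =>
        exact ⟨PUnit, inferInstance, 1, ⟨∅, by simp, by simp, fun a ha => absurd rfl ha⟩,
          fun _ _ => rfl, by simp⟩
      | insert w W _ ih =>
        obtain ⟨K, _, φ, h1, h2, h3⟩ := ih
        by_cases hw : p w = 1
        · refine ⟨K, inferInstance, φ, h1, h2, fun v hv => ?_⟩
          rcases Finset.mem_insert.mp hv with rfl | hv
          · exact fun h => absurd hw h
          · exact h3 v hv
        · have := mt (h U w hU) hw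
          simp only [Imp] at this
          push Not at this
          obtain ⟨K', _, h4, φ', h5, h6⟩ := this
          refine ⟨K × K', inferInstance, φ.prod φ', ro_prod h1 h4,
            fun u hu => Prod.ext (h2 u hu) (h5 u hu), fun v hv hpv e => ?_⟩
          rcases Finset.mem_insert.mp hv with rfl | hv
          · exact h6 (congrArg Prod.snd e)
          · exact h3 v hv hpv (congrArg Prod.fst e)
    refine ro_of_local fun A => ?_
    choose s hs using hp
    obtain ⟨K, _, φ, ⟨P, hP⟩, h2, h3⟩ := key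
      (insert (s 1) (((A ×ˢ A).image fun q => s q.1 * s q.2 * (s (q.1 * q.2))⁻¹) ∪
        A.image fun a => s a * s a⁻¹)) (A.image s) (by
        intro u hu
        rcases Finset.mem_insert.mp hu with rfl | hu
        · exact hs 1
        · rcases Finset.mem_union.mp hu with hu | hu <;>
            obtain ⟨v, -, rfl⟩ := Finset.mem_image.mp hu <;> simp [hs])
    refine ⟨{a | φ (s a) ∈ P}, ?_, fun a ha b hb h4 h5 => ?_, fun a ha h1 => ?_⟩
    · show φ (s 1) ∉ P
      rw [h2 _ (Finset.mem_insert_self _ _)]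
      exact hP.one
    · have := h2 _ (Finset.mem_insert_of_mem (Finset.mem_union_left _
        (Finset.mem_image.mpr ⟨(a, b), Finset.mem_product.mpr ⟨ha, hb⟩, rfl⟩)))
      rw [map_mul, map_inv, mul_inv_eq_one, map_mul] at this
      show φ (s (a * b)) ∈ P
      rw [← this]
      exact hP.mul _ h4 _ h5
    · have := h2 _ (Finset.mem_insert_of_mem (Finset.mem_union_right _
        (Finset.mem_image.mpr ⟨a, ha, rfl⟩)))
      rw [map_mul] at this
      show φ (s a) ∈ P ∨ φ (s a⁻¹) ∈ P
      rw [← inv_eq_of_mul_eq_one_right this]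
      exact hP.tri _ (h3 _ (Finset.mem_image_of_mem _ ha) (by rwa [hs]))
  ext _ _ _ _ p h1 h2 := ro_ext p h1 (ro_of_li h2)
  li _ _ h := ro_of_li h
  perfect _ _ h hF _ hp := ro_fol_perfect h hF hp

end Pool.Agent.H387Z.QI
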