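import Mathlib

set_option autoImplicit false
set_option linter.style.haveILetI false

namespace Pool.Agent.H387Z.QI

open MonoidAlgebra Polynomial

theorem idem_trace {n : Type} [Fintype n] [DecidableEq n] (E : Matrix n n ℤ) (hE : E * E = E) :
    0 ≤ E.trace ∧ (E.trace = 0 → E = 0) := by
  have h : IsIdempotentElem (Matrix.toLin' E) := by
    show Matrix.toLin' E * Matrix.toLin' E = _
    rw [Module.End.mul_eq_comp, ← Matrix.toLin'_mul, hE]
  rw [← Matrix.trace_toLin'_eq]
  constructor
  · rw [(LinearMap.IsIdempotentElem.isProj_range _ h).trace]; positivity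
  · intro h0
    have := LinearMap.IsIdempotentElem.eq_zero_of_trace_eq_zero h h0
    exact Matrix.toLin'.injective (by simpa using this)

theorem trace_idem_nat {R : Type} [CommRing R] [Nontrivial R]
    (hR : ∀ a : R, a * a = a → a = 0 ∨ a = 1) {n : Type} [Fintype n] [DecidableEq n]
    (E : Matrix n n R) (hE : E * E = E) : ∃ j : ℕ, E.trace = j := by
  set P : R[X] := Matrix.det (1 + (X - 1 : R[X]) • E.map C) with hP
  have ev : ∀ (S : Type) [CommRing S] (f : R →+* S) (x : S),
      P.eval₂ f x = Matrix.det (1 + (x - 1) • E.map f) := by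
    intro S _ f x
    rw [hP, ← coe_eval₂RingHom, RingHom.map_det]
    congr 1
    ext i j
    by_cases h : i = j <;> simp [Matrix.one_apply, h]
  have mul : ∀ (S : Type) [CommRing S] (f : R →+* S) (x y : S),
      P.eval₂ f x * P.eval₂ f y = P.eval₂ f (x * y) := by
    intro S _ f x y
    rw [ev, ev, ev, ← Matrix.det_mul]
    congr 1
    have h2 : E.map f * E.map f = E.map f := by rw [← Matrix.map_mul, hE]
    rw [add_mul, mul_add, mul_add, one_mul, mul_one, one_mul, Matrix.smul_mul, Matrix.mul_smul, h2,
      smul_smul, add_assoc, ← add_smul, ← add_smul]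
    congr 2
    ring
  have key : ∀ j, P * C (P.coeff j) = C (P.coeff j) * X ^ j := by
    intro j
    have h := mul R[X][X] ((C : R[X] →+* R[X][X]).comp C) (C X) X
    have e1 : P.eval₂ ((C : R[X] →+* R[X][X]).comp C) (C X) = C P := by
      rw [← hom_eval₂, eval₂_C_X]
    have e2 : P.eval₂ ((C : R[X] →+* R[X][X]).comp C) X = P.map C := by
      rw [← eval₂_map, eval₂_C_X]
    have e3 : P.eval₂ ((C : R[X] →+* R[X][X]).comp C) (C X * X) = (P.map C).comp (C X * X) := by
      rw [← eval₂_map]; rfl
    rw [e1, e2, e3] at h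
    have := congrArg (fun p => p.coeff j) h
    simpa only [coeff_C_mul, Polynomial.coeff_map, comp_C_mul_X_coeff] using this
  have h1 : P.eval 1 = 1 := by
    have := ev R (RingHom.id R) 1
    simpa using this
  have hex : ∃ j, P.coeff j = 1 := by
    by_contra hc
    push Not at hc
    have : P = 0 := by
      ext j
      have h := congrArg (fun p => p.coeff j) (key j)
      simp only [coeff_mul_C, coeff_C_mul, coeff_X_pow, if_true, mul_one] at h
      exact (hR _ h).resolve_right (hc j)
    rw [this] at h1
    simp at h1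
  obtain ⟨j, hj⟩ := hex
  have hPj : P = X ^ j := by simpa [hj] using key j
  refine ⟨j, ?_⟩
  have h2 := ev R[X] C (X + 1)
  rw [add_sub_cancel_right, hPj, eval₂_X_pow] at h2
  rw [← Matrix.coeff_det_one_add_X_smul_one, ← h2, coeff_X_add_one_pow]
  simp

section Reg

variable {V : Type} [Group V] [Fintype V] [DecidableEq V]

def regHom : V →* Matrix V V ℤ where
  toFun g := Matrix.of fun x y => if x = g * y then 1 else 0
  map_one' := by ext x y; simp [Matrix.one_apply]
  map_mul' g h := by
    ext x y
    simp [Matrix.mul_apply, mul_assoc]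

noncomputable def reg : ℤ[V] →ₐ[ℤ] Matrix V V ℤ := MonoidAlgebra.lift ℤ _ V regHom

theorem reg_apply (a : ℤ[V]) (x y : V) : reg a x y = a.coeff (x * y⁻¹) := by
  induction a using MonoidAlgebra.induction_linear with
  | zero => simp
  | add a b ha hb => simp [ha, hb]
  | single g z =>
    simp only [reg, lift_single, regHom, MonoidHom.coe_mk, OneHom.coe_mk, Matrix.smul_apply,
      Matrix.of_apply, coeff_single_apply, smul_eq_mul, mul_ite, mul_one, mul_zero]
    congr 1
    apply propext
    constructor
    · rintro rfl; simp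
    · rintro rfl; simp

theorem reg_trace (a : ℤ[V]) : (reg a).trace = Fintype.card V * a.coeff 1 := by
  simp [Matrix.trace, reg_apply]

theorem reg_inj {a : ℤ[V]} (h : reg a = 0) : a = 0 := by
  ext x
  have := reg_apply a x 1
  rw [h] at this
  simpa using this.symm

theorem idem_groupRing (a : ℤ[V]) (ha : a * a = a) : a = 0 ∨ a = 1 := by
  have hpos : (0 : ℤ) < Fintype.card V := by exact_mod_cast Fintype.card_pos
  have aux : ∀ a : ℤ[V], a * a = a → 0 ≤ a.coeff 1 ∧ (a.coeff 1 = 0 → a = 0) := by
    intro a ha
    have h := idem_trace (reg a) (by rw [← map_mul, ha])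
    rw [reg_trace] at h
    exact ⟨nonneg_of_mul_nonneg_right h.1 hpos |> fun h => h, fun h0 =>
      reg_inj (h.2 (by rw [h0, mul_zero]))⟩
  have h1 := aux a ha
  have h2 := aux (1 - a) (by rw [sub_mul, mul_sub, mul_sub, ha]; simp)
  have e : (1 - a).coeff 1 = 1 - a.coeff 1 := by simp
  by_cases h0 : a.coeff 1 = 0
  · exact Or.inl (h1.2 h0)
  · right
    have := h2.2 (by have := h1.1; have := h2.1; omega)
    exact (sub_eq_zero.mp this).symm

end Reg

section Ind

variable {V : Type} [Group V] (H : Subgroup V)

open Classical in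
noncomputable def toH (x : V) : ℤ[H] := if h : x ∈ H then single ⟨x, h⟩ 1 else 0

theorem toH_mul (x : V) {y : V} (hy : y ∈ H) : toH H x * toH H y = toH H (x * y) := by
  by_cases hx : x ∈ H
  · simp only [toH, dif_pos hx, dif_pos hy, dif_pos (H.mul_mem hx hy), single_mul_single, mul_one]
    rfl
  · have : x * y ∉ H := fun h => hx (by simpa using H.mul_mem h (H.inv_mem hy))
    simp [toH, dif_neg hx, dif_neg this]

open Classical in
theorem toH_coeff (x : V) (c : H) : (toH H x).coeff c = if x = c then 1 else 0 := by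
  by_cases hx : x ∈ H
  · simp only [toH, dif_pos hx, coeff_single_apply]
    congr 1
    apply propext
    exact Subtype.ext_iff
  · have : x ≠ c := fun h => hx (h ▸ c.2)
    simp [toH, dif_neg hx, this]

variable [Fintype (V ⧸ H)] [DecidableEq (V ⧸ H)]

noncomputable def indHom : V →* Matrix (V ⧸ H) (V ⧸ H) ℤ[H] where
  toFun g := Matrix.of fun q r => toH H ((q.out)⁻¹ * g * r.out)
  map_one' := by
    ext1 q r
    simp only [mul_one, Matrix.of_apply, Matrix.one_apply]
    split_ifs with h
    · subst h
      simp [toH, H.one_mem]; rfl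
    · have : (q.out)⁻¹ * r.out ∉ H := by
        rw [← QuotientGroup.eq]; simpa using h
      simp [toH, this]
  map_mul' g h := by
    ext1 q r
    simp only [Matrix.mul_apply, Matrix.of_apply]
    rw [Finset.sum_eq_single (QuotientGroup.mk (h * r.out) : V ⧸ H)]
    · rw [toH_mul]
      · congr 1; group
      · rw [mul_assoc, ← QuotientGroup.eq]; simp
    · intro b _ hb
      have : (b.out)⁻¹ * h * r.out ∉ H := by
        rw [mul_assoc, ← QuotientGroup.eq]; simpa using hb
      simp [toH, this]
    · simp

noncomputable def ind : ℤ[V] →ₐ[ℤ] Matrix (V ⧸ H) (V ⧸ H) ℤ[H] :=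
  MonoidAlgebra.lift ℤ _ V (indHom H)

theorem ind_diag (a : ℤ[V]) (q : V ⧸ H) (c : H) :
    (ind H a q q).coeff c = a.coeff (q.out * c * (q.out)⁻¹) := by
  classical
  induction a using MonoidAlgebra.induction_linear with
  | zero => simp
  | add a b ha hb => simp [ha, hb]
  | single g z =>
    simp only [ind, lift_single, indHom, MonoidHom.coe_mk, OneHom.coe_mk, Matrix.smul_apply,
      Matrix.of_apply, coeff_single_apply, coeff_smul_apply, toH_coeff, smul_eq_mul, mul_ite,
      mul_one, mul_zero]
    congr 1
    apply propext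
    constructor
    · intro h; rw [← h]; group
    · rintro rfl; group

end Ind

/-- augmentation -/
noncomputable def aug (G : Type) [Group G] : ℤ[G] →ₐ[ℤ] ℤ := MonoidAlgebra.lift ℤ ℤ G 1

theorem aug_single {G : Type} [Group G] (g : G) (z : ℤ) : aug G (single g z) = z := by
  simp [aug]

theorem aug_eq_sum {G : Type} [Group G] [Fintype G] (a : ℤ[G]) : aug G a = ∑ g, a.coeff g := by
  classical
  induction a using MonoidAlgebra.induction_linear with
  | zero => simp
  | add a b ha hb => simp [ha, hb, Finset.sum_add_distrib]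
  | single g z => simp [aug_single, coeff_single_apply]

theorem trace_comp_map {R S n m : Type} [Ring R] [Ring S] [Fintype n] [Fintype m] [DecidableEq n]
    [DecidableEq m] (f : R →+* Matrix m m S) (e : Matrix n n R) (he : e * e = e) :
    ∃ E : Matrix (n × m) (n × m) S, E * E = E ∧ E.trace = ∑ i, (f (e i i)).trace ∧
      (E = 0 → ∀ i j, f (e i j) = 0) := by
  refine ⟨Matrix.compRingEquiv n m S (e.map f), ?_, ?_, ?_⟩
  · rw [← map_mul, ← Matrix.map_mul, he]
  · simp [Matrix.trace, Fintype.sum_prod_type]
  · intro h i j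
    have : e.map f = 0 := (Matrix.compRingEquiv n m S).injective (by rw [h, map_zero])
    exact congrFun (congrFun this i) j

/-- Swan: a projective `ℤ V`-module with zero coinvariants vanishes -/
theorem swan {V : Type} [Group V] [Finite V] {n : Type} [Fintype n] [DecidableEq n]
    (e : Matrix n n ℤ[V]) (he : e * e = e) (h0 : ∀ i j, aug V (e i j) = 0) : e = 0 := by
  classical
  haveI := Fintype.ofFinite V
  let t : V → ℤ := fun g => ∑ i, (e i i).coeff g
  have hT : ∀ h : V, h ≠ 1 → ∑ g : V, t (g * h * g⁻¹) = 0 := by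
    intro h hh
    let H := Subgroup.zpowers h
    letI : CommGroup H := IsCyclic.commGroup
    obtain ⟨E, hE, htr, -⟩ := trace_comp_map (ind H).toRingHom e he
    obtain ⟨j, hj⟩ := trace_idem_nat (idem_groupRing (V := H)) E hE
    let c : H := ⟨h, Subgroup.mem_zpowers h⟩
    have hc : c ≠ 1 := fun e => hh (congrArg Subtype.val e)
    have h1 : E.trace.coeff c = 0 := by
      rw [hj, coeff_natCast, Finsupp.single_apply, if_neg (Ne.symm hc)]
    have h2 : E.trace.coeff c = ∑ q : V ⧸ H, t (q.out * h * (q.out)⁻¹) := by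
      rw [htr]
      simp only [Matrix.trace, Matrix.diag, MonoidAlgebra.coeff_sum, Finsupp.finset_sum_apply, t]
      rw [Finset.sum_comm]
      refine Finset.sum_congr rfl fun q _ => Finset.sum_congr rfl fun i _ => ?_
      exact ind_diag H _ q c
    rw [← Finset.sum_fiberwise Finset.univ (fun g : V => (QuotientGroup.mk g : V ⧸ H))]
    have h3 : ∀ q : V ⧸ H, ∑ g ∈ Finset.univ.filter (fun g : V => (QuotientGroup.mk g : V ⧸ H) = q),
        t (g * h * g⁻¹) = Nat.card H * t (q.out * h * (q.out)⁻¹) := by
      intro q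
      rw [Finset.sum_congr rfl (g := fun _ => t (q.out * h * (q.out)⁻¹))]
      · rw [Finset.sum_const, nsmul_eq_mul]
        congr 2
        rw [← Fintype.card_subtype, ← Nat.card_eq_fintype_card]
        refine Nat.card_congr ⟨fun g => ⟨(q.out)⁻¹ * g.1, ?_⟩, fun c => ⟨q.out * c, ?_⟩, ?_, ?_⟩
        · rw [← QuotientGroup.eq]; simpa using g.2.symm
        · simp
        · intro g; simp
        · intro c; simp
      · intro g hg
        have hg' : (q.out)⁻¹ * g ∈ H := by
          rw [← QuotientGroup.eq]; simpa using (Finset.mem_filter.mp hg).2.symm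
        obtain ⟨k, hk⟩ := hg'
        have : g = q.out * h ^ k := by rw [show h ^ k = _ from hk]; group
        rw [this]
        congr 1
        group
    rw [Finset.sum_congr rfl fun q _ => h3 q, ← Finset.mul_sum, ← h2, h1, mul_zero]
  have hsum : ∑ g, t g = 0 := by
    simp only [t]
    rw [Finset.sum_comm]
    exact Finset.sum_eq_zero fun i _ => by rw [← aug_eq_sum, h0]
  have h1 : (Fintype.card V : ℤ) * t 1 = 0 := by
    have e1 : ∑ h : V, ∑ g : V, t (g * h * g⁻¹) = 0 := by
      rw [Finset.sum_comm]
      refine Finset.sum_eq_zero fun g _ => ?_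
      rw [← hsum]
      exact Fintype.sum_equiv (MulAut.conj g).toEquiv _ _ fun _ => rfl
    rw [Finset.sum_eq_single 1 (fun h _ hh => hT h hh) (by simp)] at e1
    simpa using e1
  obtain ⟨E, hE, htr, hz⟩ := trace_comp_map (reg (V := V)).toRingHom e he
  have : E = 0 := (idem_trace E hE).2 (by
    rw [htr, ← h1]
    simp only [t, Finset.mul_sum]
    exact Finset.sum_congr rfl fun i _ => reg_trace _)
  ext1 i j
  exact reg_inj (hz this i j)

end Pool.Agent.H387Z.QI
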