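import Mathlib
import Pool.Agent.H387Z.QI.Cone
import Pool.Agent.H387Z.QI.Swan

set_option autoImplicit false
set_option linter.style.haveILetI false

namespace Pool.Agent.H387Z.QI

open MonoidAlgebra

variable {D : Type} [Group D]

/-- push forward of group rings -/
noncomputable abbrev pf {A B : Type} [Group A] [Group B] (f : A →* B) : ℤ[A] →+* ℤ[B] :=
  mapDomainRingHom ℤ f

theorem pf_single {A B : Type} [Group A] [Group B] (f : A →* B) (a : A) (z : ℤ) :
    pf f (single a z) = single (f a) z := by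
  simp [pf]

theorem pf_comp {A B C : Type} [Group A] [Group B] [Group C] (f : A →* B) (g : B →* C)
    (a : ℤ[A]) : pf g (pf f a) = pf (g.comp f) a := by
  induction a using MonoidAlgebra.induction_linear with
  | zero => simp
  | add a b ha hb => simp only [map_add, ha, hb]
  | single g z => simp only [pf_single]; rfl

theorem aug_pf {A B : Type} [Group A] [Group B] (f : A →* B) (a : ℤ[A]) :
    aug B (pf f a) = aug A a := by
  induction a using MonoidAlgebra.induction_linear with
  | zero => simp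
  | add a b ha hb => simp only [map_add, ha, hb]
  | single g z => simp only [pf_single, aug_single]

theorem pf_surj {A B : Type} [Group A] [Group B] (f : A →* B) (hf : Function.Surjective f) :
    Function.Surjective (pf f) := by
  intro b
  induction b using MonoidAlgebra.induction_linear with
  | zero => exact ⟨0, map_zero _⟩
  | add a b ha hb =>
    obtain ⟨a, rfl⟩ := ha
    obtain ⟨b, rfl⟩ := hb
    exact ⟨a + b, map_add _ _ _⟩
  | single g z =>
    obtain ⟨a, rfl⟩ := hf g
    exact ⟨single a z, pf_single _ _ _⟩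

noncomputable def bd (m : ℤ[D × D]) : ℤ[D] :=
  pf (MonoidHom.snd D D) m - pf (MonoidHom.fst D D) m

theorem bd_add (m n : ℤ[D × D]) : bd (m + n) = bd m + bd n := by
  simp only [bd, map_add]; abel

theorem bd_neg (m : ℤ[D × D]) : bd (-m) = - bd m := by
  simp only [bd, map_neg]; abel

theorem bd_zero : bd (0 : ℤ[D × D]) = 0 := by simp [bd]

theorem bd_single (a b : D) (z : ℤ) : bd (single (a, b) z) = single b z - single a z := by
  simp only [bd, pf_single]; rfl

theorem bd_mul (g : D) (m : ℤ[D × D]) : bd (single (g, g) 1 * m) = single g 1 * bd m := by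
  simp only [bd, map_mul, pf_single, mul_sub]; rfl

/-- The Magnus extension of `D`. -/
@[ext] structure Mag (D : Type) [Group D] where
  m : ℤ[D × D]
  d : D
  h : bd m = single d 1 - 1

noncomputable instance : Group (Mag D) where
  mul x y := ⟨x.m + single (x.d, x.d) 1 * y.m, x.d * y.d, by
    rw [bd_add, bd_mul, x.h, y.h, mul_sub, single_mul_single]; simp⟩
  one := ⟨0, 1, by rw [bd_zero]; simp [one_def]⟩
  inv x := ⟨-(single (x.d⁻¹, x.d⁻¹) 1 * x.m), x.d⁻¹, by
    rw [bd_neg, bd_mul, x.h, mul_sub, single_mul_single]; simp [one_def]⟩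
  mul_assoc x y z := by
    refine Mag.ext ?_ (mul_assoc _ _ _)
    show x.m + single (x.d, x.d) 1 * y.m + single (x.d * y.d, x.d * y.d) 1 * z.m =
      x.m + single (x.d, x.d) 1 * (y.m + single (y.d, y.d) 1 * z.m)
    rw [mul_add, ← mul_assoc, single_mul_single, add_assoc]; simp
  one_mul x := by
    refine Mag.ext ?_ (one_mul _)
    show 0 + single ((1 : D), (1 : D)) 1 * x.m = x.m
    rw [zero_add]; exact one_mul _
  mul_one x := by
    refine Mag.ext ?_ (mul_one _)
    show x.m + single (x.d, x.d) 1 * 0 = x.m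
    simp
  inv_mul_cancel x := by
    refine Mag.ext ?_ (inv_mul_cancel _)
    show -(single (x.d⁻¹, x.d⁻¹) 1 * x.m) + single (x.d⁻¹, x.d⁻¹) 1 * x.m = 0
    simp

theorem Mag.mul_m (x y : Mag D) : (x * y).m = x.m + single (x.d, x.d) 1 * y.m := rfl
theorem Mag.mul_d (x y : Mag D) : (x * y).d = x.d * y.d := rfl
theorem Mag.one_m : (1 : Mag D).m = 0 := rfl
theorem Mag.one_d : (1 : Mag D).d = 1 := rfl

noncomputable def Mag.proj : Mag D →* D where
  toFun x := x.d
  map_one' := rfl
  map_mul' _ _ := rfl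

theorem Mag.proj_apply (x : Mag D) : Mag.proj x = x.d := rfl

theorem Mag.proj_surj : Function.Surjective (Mag.proj : Mag D →* D) := fun d =>
  ⟨⟨single (1, d) 1, d, by rw [bd_single]; rfl⟩, rfl⟩

theorem Mag.mul_m_ker {x : Mag D} (hx : x.d = 1) (y : Mag D) : (x * y).m = x.m + y.m := by
  rw [Mag.mul_m, hx]
  congr 1
  exact one_mul _

theorem Mag.ker_comm {x y : Mag D} (hx : x.d = 1) (hy : y.d = 1) : x * y = y * x := by
  refine Mag.ext ?_ (by rw [Mag.mul_d, Mag.mul_d, hx, hy])
  rw [Mag.mul_m_ker hx, Mag.mul_m_ker hy, add_comm]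

theorem NI.add {Γ : Type} [Group Γ] (h : NI Γ) (f : Γ → ℤ) (hf : ∀ a b, f (a * b) = f a + f b)
    (g : Γ) : f g = 0 :=
  h (MonoidHom.mk' (fun a => Multiplicative.ofAdd (f a)) fun a b => by rw [hf, ofAdd_add]) g

theorem Mag.eq_one_of_NI {Γ : Type} [Group Γ] (h : NI Γ) (φ : Γ →* Mag D)
    (hφ : ∀ g, (φ g).d = 1) (g : Γ) : φ g = 1 := by
  refine Mag.ext ?_ (hφ g)
  ext p
  exact h.add (fun g => (φ g).m.coeff p) (fun a b => by
    simp only [map_mul, Mag.mul_m_ker (hφ a)]; simp) g

theorem exists_retr (H : Subgroup D) : ∃ r : D → D, (∀ d, r d ∈ H) ∧ r 1 = 1 ∧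
    ∀ h ∈ H, ∀ d, r (h * d) = h * r d := by
  let o : D → D := fun d => (Quotient.mk (QuotientGroup.rightRel H) d).out
  have ho : ∀ d, d * (o d)⁻¹ ∈ H := fun d =>
    QuotientGroup.rightRel_apply.mp (Quotient.mk_out (s := QuotientGroup.rightRel H) d)
  have ho2 : ∀ h ∈ H, ∀ d, o (h * d) = o d := by
    intro h hh d
    have : Quotient.mk (QuotientGroup.rightRel H) d =
        Quotient.mk (QuotientGroup.rightRel H) (h * d) :=
      Quotient.sound (QuotientGroup.rightRel_apply.mpr (by simpa using hh))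
    simp only [o, this]
  refine ⟨fun d => d * (o d)⁻¹ * o 1, fun d => H.mul_mem (ho d) ?_, by simp, fun h hh d => ?_⟩
  · simpa using H.inv_mem (ho 1)
  · simp only [ho2 h hh d, mul_assoc]

theorem exists_fox {Γ : Type} [Group Γ] {k : ℕ} (x : Fin k → Γ)
    (hx : Subgroup.closure (Set.range x) = ⊤) (g : Γ) :
    ∃ f : Fin k → ℤ[Γ], ∑ l, f l * (single (x l) 1 - 1) = single g 1 - 1 := by
  classical
  have hg : g ∈ Subgroup.closure (Set.range x) := hx ▸ Subgroup.mem_top g
  induction hg using Subgroup.closure_induction with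
  | mem _ h =>
    obtain ⟨i, rfl⟩ := h
    exact ⟨Pi.single i 1, by simp [Pi.single_apply]⟩
  | one => exact ⟨0, by simp [one_def]⟩
  | mul a b _ _ ha hb =>
    obtain ⟨f, hf⟩ := ha
    obtain ⟨f', hf'⟩ := hb
    refine ⟨fun l => f l + single a 1 * f' l, ?_⟩
    simp only [add_mul, Finset.sum_add_distrib, mul_assoc, ← Finset.mul_sum, hf, hf']
    rw [mul_sub, single_mul_single]
    simp
  | inv a _ ha =>
    obtain ⟨f, hf⟩ := ha
    refine ⟨fun l => -(single a⁻¹ 1 * f l), ?_⟩
    simp only [neg_mul, Finset.sum_neg_distrib, mul_assoc, ← Finset.mul_sum, hf]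
    rw [mul_sub, single_mul_single]
    simp [one_def]

/-- additive maps out of a group ring -/
noncomputable def lin {A M : Type} [AddCommGroup M] (f : A → M) : ℤ[A] →+ M :=
  (Finsupp.liftAddHom fun a => zmultiplesHom M (f a)).comp coeffAddEquiv.toAddMonoidHom

theorem lin_single {A M : Type} [AddCommGroup M] (f : A → M) (a : A) (z : ℤ) :
    lin f (single a z) = z • f a := by
  simp [lin]

/-- The properties of the matrix attached to a homomorphism into a Magnus extension. -/
structure Good {Γ : Type} [Group Γ] {k : ℕ} (x : Fin k → Γ) (φ : Γ →* Mag D)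
    (η : Matrix (Fin k) (Fin k) ℤ[Γ]) : Prop where
  d1 : ∀ i, pf (Mag.proj.comp φ) (∑ l, η i l * (single (x l) 1 - 1)) =
    pf (Mag.proj.comp φ) (single (x i) 1 - 1)
  aug : ∀ i l, aug Γ (η i l) = 0
  ker : ∀ u : Fin k → ℤ[Γ], pf φ (∑ l, u l * (single (x l) 1 - 1)) = 0 →
    ∀ i, pf (Mag.proj.comp φ) (∑ l, u l * η l i) = 0

theorem exists_good {Γ : Type} [Group Γ] (hN : NI Γ) {k : ℕ} (x : Fin k → Γ)
    (hx : Subgroup.closure (Set.range x) = ⊤) (φ : Γ →* Mag D) : ∃ η, Good x φ η := by
  classical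
  set φ' : Γ →* D := Mag.proj.comp φ with hφ'
  have hd : ∀ g, (φ g).d = φ' g := fun g => rfl
  obtain ⟨r, hr, hr1, hrm⟩ := exists_retr φ'.range
  choose fox hfox using exists_fox x hx
  let F : D → Fin k → ℤ[D] := fun δ l =>
    if h : δ ∈ φ'.range then pf φ' (fox h.choose l) else 0
  have hF : ∀ δ ∈ φ'.range, ∑ l, F δ l * (single (φ' (x l)) 1 - 1) = single δ 1 - 1 := by
    intro δ h
    have := congrArg (pf φ') (hfox h.choose)
    simp only [map_sum, map_mul, map_sub, map_one, pf_single, h.choose_spec] at this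
    simpa only [F, dif_pos h] using this
  have hFr : ∀ δ l, F δ l ∈ (pf φ').range := by
    intro δ l
    by_cases h : δ ∈ φ'.range
    · simp only [F, dif_pos h]; exact ⟨_, rfl⟩
    · simp only [F, dif_neg h]; exact zero_mem _
  let ψ : ℤ[D × D] →+ (Fin k → ℤ[D]) :=
    lin fun p l => single (r p.1) 1 * F ((r p.1)⁻¹ * r p.2) l
  have ψ1 : ∀ g ∈ φ'.range, ∀ m l, ψ (single (g, g) 1 * m) l = single g 1 * ψ m l := by
    intro g hg m l
    induction m using MonoidAlgebra.induction_linear with
    | zero => simp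
    | add a b ha hb => simp only [mul_add, map_add, Pi.add_apply, ha, hb]
    | single p z =>
      simp only [ψ, single_mul_single, lin_single, Pi.smul_apply, Prod.fst_mul, Prod.snd_mul,
        hrm g hg, one_mul, mul_smul_comm]
      congr 1
      rw [← mul_assoc (single g 1), single_mul_single, mul_one]
      congr 2
      group
  have ψ2 : ∀ m, ∑ l, ψ m l * (single (φ' (x l)) 1 - 1) = lin (fun d => single (r d) 1) (bd m) := by
    intro m
    induction m using MonoidAlgebra.induction_linear with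
    | zero => simp [bd_zero]
    | add a b ha hb =>
      simp only [map_add, Pi.add_apply, add_mul, Finset.sum_add_distrib, ha, hb, bd_add]
    | single p z =>
      obtain ⟨a, b⟩ := p
      simp only [ψ, lin_single, Pi.smul_apply, bd_single, map_sub, smul_mul_assoc, mul_assoc,
        ← Finset.smul_sum, ← Finset.mul_sum]
      rw [hF _ (mul_mem (inv_mem (hr a)) (hr b)), mul_sub, single_mul_single, smul_sub]
      simp
  have ψ3 : ∀ m l, ψ m l ∈ (pf φ').range := by
    intro m l
    induction m using MonoidAlgebra.induction_linear with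
    | zero => simp
    | add a b ha hb => simp only [map_add, Pi.add_apply]; exact add_mem ha hb
    | single p z =>
      simp only [ψ, lin_single, Pi.smul_apply]
      refine zsmul_mem (mul_mem ?_ (hFr _ _)) z
      obtain ⟨g, hg⟩ := hr p.1
      exact ⟨single g 1, by rw [pf_single, hg]⟩
  have μmul : ∀ a b l, ψ (φ (a * b)).m l = ψ (φ a).m l + single (φ' a) 1 * ψ (φ b).m l := by
    intro a b l
    rw [map_mul, Mag.mul_m, map_add, Pi.add_apply, hd, ψ1 _ ⟨a, rfl⟩]
  choose η hη using fun i l => ψ3 (φ (x i)).m l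
  refine ⟨η, fun i => ?_, fun i l => ?_, fun u hu i => ?_⟩
  · simp only [map_sum, map_mul, map_sub, map_one, pf_single, ← hφ', hη]
    rw [ψ2, (φ (x i)).h, map_sub, one_def, lin_single, lin_single, hd, hr1]
    have := hrm (φ' (x i)) ⟨_, rfl⟩ 1
    rw [mul_one, hr1, mul_one] at this
    rw [this]; simp
  · rw [← aug_pf φ', hη]
    refine hN.add (fun g => aug D (ψ (φ g).m l)) (fun a b => ?_) _
    rw [μmul, map_add, map_mul, aug_single, one_mul]
  · let ν : ℤ[Mag D] →+ (Fin k → ℤ[D]) := lin fun g => ψ g.m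
    have hν : ∀ (v : ℤ[Γ]) (l : Fin k), ν (pf φ (v * (single (x l) 1 - 1))) i =
        pf φ' v * ψ (φ (x l)).m i := by
      intro v l
      induction v using MonoidAlgebra.induction_linear with
      | zero => simp
      | add a b ha hb => simp only [add_mul, map_add, Pi.add_apply, ha, hb]
      | single g z =>
        simp only [mul_sub, single_mul_single, mul_one, map_sub, pf_single, ν, lin_single,
          Pi.sub_apply, Pi.smul_apply, μmul, smul_add, add_sub_cancel_left]
        rw [← smul_mul_assoc, smul_single, smul_eq_mul, mul_one]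
    have := congrFun (congrArg ν hu) i
    simp only [map_sum, Finset.sum_apply, hν, map_zero, Pi.zero_apply] at this
    simpa only [map_sum, map_mul, ← hφ', hη] using this

theorem perfect_of_good {Γ : Type} [Group Γ] {k : ℕ} {x : Fin k → Γ}
    (hx : Subgroup.closure (Set.range x) = ⊤) {φ : Γ →* Mag D} {η : Matrix (Fin k) (Fin k) ℤ[Γ]}
    (h : Good x φ η) :
    (Mag.proj.comp φ).range ≤ ⁅(Mag.proj.comp φ).range, (Mag.proj.comp φ).range⁆ := by
  set φ' : Γ →* D := Mag.proj.comp φ with hφ'
  obtain ⟨r, hr, hr1, hrm⟩ := exists_retr φ'.range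
  let c : Γ →* Abelianization φ'.range := Abelianization.of.comp φ'.rangeRestrict
  let χ : ℤ[D] →+ Additive (Abelianization φ'.range) :=
    lin fun d => Additive.ofMul (Abelianization.of ⟨r d, hr d⟩)
  have hχ : ∀ g z, χ (single (φ' g) z) = z • Additive.ofMul (c g) := by
    intro g z
    simp only [χ, lin_single]
    have := hrm (φ' g) ⟨_, rfl⟩ 1
    rw [mul_one, hr1, mul_one] at this
    have e : (⟨r (φ' g), hr (φ' g)⟩ : φ'.range) = φ'.rangeRestrict g := Subtype.ext this
    rw [e]; rfl
  have hχ2 : ∀ (v : ℤ[Γ]) (g : Γ), χ (pf φ' (v * (single g 1 - 1))) =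
      aug Γ v • Additive.ofMul (c g) := by
    intro v g
    induction v using MonoidAlgebra.induction_linear with
    | zero => simp
    | add a b ha hb => simp only [add_mul, map_add, ha, hb, add_smul]
    | single a z =>
      simp only [mul_sub, single_mul_single, mul_one, map_sub, pf_single, hχ, aug_single, map_mul c,
        ofMul_mul, smul_add, add_sub_cancel_left]
  have hc : ∀ i, c (x i) = 1 := by
    intro i
    have h1 := congrArg χ (h.d1 i)
    have h2 := hχ2 1 (x i)
    rw [one_mul, map_one, one_smul] at h2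
    rw [← hφ', h2, map_sum, map_sum] at h1
    simp only [hχ2, h.aug, zero_smul, Finset.sum_const_zero] at h1
    exact h1.symm
  have hall : ∀ g, c g = 1 := by
    intro g
    have : Subgroup.closure (Set.range x) ≤ c.ker := by
      rw [Subgroup.closure_le]
      rintro _ ⟨i, rfl⟩
      exact hc i
    exact this (hx ▸ Subgroup.mem_top g)
  rintro _ ⟨g, rfl⟩
  have h1 : φ'.rangeRestrict g ∈ commutator φ'.range := by
    rw [← Abelianization.ker_of]; exact hall g
  have h2 : φ' g ∈ (commutator φ'.range).map φ'.range.subtype := ⟨_, h1, rfl⟩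
  rwa [Subgroup.map_subtype_commutator] at h2

section Tower

variable (V : Type) [Group V]

/-- the tower of Magnus extensions -/
noncomputable def TwS : ℕ → Σ G : Type, Group G
  | 0 => ⟨V, inferInstance⟩
  | n + 1 => ⟨@Mag (TwS n).1 (TwS n).2, inferInstance⟩

def Tw (n : ℕ) : Type := (TwS V n).1

noncomputable instance (n : ℕ) : Group (Tw V n) := (TwS V n).2

noncomputable def up (n : ℕ) : Tw V (n + 1) ≃* Mag (Tw V n) := MulEquiv.refl _

noncomputable def hol : (n : ℕ) → (Tw V n →* V)
  | 0 => MonoidHom.id V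
  | n + 1 => (hol n).comp (Mag.proj.comp (up V n).toMonoidHom)

theorem hol_succ (n : ℕ) (g : Tw V (n + 1)) : hol V (n + 1) g = hol V n (up V n g).d := rfl

theorem hol_surj : ∀ n, Function.Surjective (hol V n)
  | 0 => Function.surjective_id
  | n + 1 => (hol_surj n).comp (Mag.proj_surj.comp (up V n).surjective)

theorem eq_one_of_hol {Γ : Type} [Group Γ] (h : NI Γ) :
    ∀ (n : ℕ) (φ : Γ →* Tw V n), (∀ g, hol V n (φ g) = 1) → ∀ g, φ g = 1
  | 0, _, hφ => hφ
  | n + 1, φ, hφ => fun g => by
    have h1 := eq_one_of_hol h n (Mag.proj.comp ((up V n).toMonoidHom.comp φ)) hφ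
    exact (up V n).injective
      ((Mag.eq_one_of_NI h ((up V n).toMonoidHom.comp φ) h1 g).trans (map_one _).symm)

theorem li_ker_hol (n : ℕ) : LocallyIndicable (hol V n).ker := by
  rw [li_iff]
  intro H _ hN
  rw [eq_bot_iff]
  intro g hg
  have := eq_one_of_hol V hN n ((hol V n).ker.subtype.comp H.subtype) (fun g => g.1.2) ⟨g, hg⟩
  exact Subtype.ext this

/-- derived series of a subgroup -/
def dS {G : Type} [Group G] (N : Subgroup G) (j : ℕ) : Subgroup G := (fun H => ⁅H, H⁆)^[j] N

theorem dS_succ {G : Type} [Group G] (N : Subgroup G) (j : ℕ) :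
    dS N (j + 1) = ⁅dS N j, dS N j⁆ := Function.iterate_succ_apply' _ _ _

theorem dS_map_le {G H : Type} [Group G] [Group H] (f : G →* H) {N : Subgroup G} {M : Subgroup H}
    (h : N.map f ≤ M) : ∀ j, (dS N j).map f ≤ dS M j
  | 0 => h
  | j + 1 => by
    rw [dS_succ, dS_succ, Subgroup.map_commutator]
    exact Subgroup.commutator_mono (dS_map_le f h j) (dS_map_le f h j)

theorem dS_normal {G : Type} [Group G] (N : Subgroup G) [h : N.Normal] : ∀ j, (dS N j).Normal
  | 0 => h
  | j + 1 => by
    rw [dS_succ]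
    haveI := dS_normal N j
    infer_instance

theorem dS_anti {G : Type} [Group G] (N : Subgroup G) : Antitone (dS N) :=
  antitone_nat_of_succ_le fun j => by
    rw [dS_succ, Subgroup.commutator_le]
    intro a ha b hb
    rw [commutatorElement_def]
    exact mul_mem (mul_mem (mul_mem ha hb) (inv_mem ha)) (inv_mem hb)

theorem dS_ker_hol : ∀ n, dS (hol V n).ker n = ⊥
  | 0 => by
    rw [eq_bot_iff]; intro g hg; exact hg
  | n + 1 => by
    have h1 := dS_map_le (Mag.proj.comp (up V n).toMonoidHom) (N := (hol V (n + 1)).ker)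
      (M := (hol V n).ker) (by rintro _ ⟨g, hg, rfl⟩; exact hg) n
    rw [dS_ker_hol n] at h1
    rw [dS_succ, eq_bot_iff, Subgroup.commutator_le]
    intro a ha b hb
    have ha' : (up V n a).d = 1 := h1 ⟨a, ha, rfl⟩
    have hb' : (up V n b).d = 1 := h1 ⟨b, hb, rfl⟩
    rw [Subgroup.mem_bot, commutatorElement_eq_one_iff_mul_comm]
    exact (up V n).injective (by rw [map_mul, map_mul, Mag.ker_comm ha' hb'])

theorem solvable_of_dS {G : Type} [Group G] (N : Subgroup G) {j : ℕ} (h : dS N j = ⊥) :
    Group.IsSolvable N := by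
  refine ⟨j, ?_⟩
  have h1 := dS_map_le N.subtype (N := ⊤) (M := N) (by rintro _ ⟨g, -, rfl⟩; exact g.2) j
  have h2 : ∀ j, derivedSeries N j = dS ⊤ j := by
    intro j
    induction j with
    | zero => rfl
    | succ j ih => rw [derivedSeries_succ, dS_succ, ih]
  rw [h, le_bot_iff, Subgroup.map_eq_bot_iff_of_injective _ N.subtype_injective] at h1
  rw [h2, h1]

theorem hol_perfect {Γ : Type} [Group Γ] (hN : NI Γ) {k : ℕ} (x : Fin k → Γ)
    (hx : Subgroup.closure (Set.range x) = ⊤) (n : ℕ) (φ : Γ →* Tw V (n + 1)) :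
    ((hol V (n + 1)).comp φ).range ≤
      ⁅((hol V (n + 1)).comp φ).range, ((hol V (n + 1)).comp φ).range⁆ := by
  obtain ⟨η, hη⟩ := exists_good hN x hx ((up V n).toMonoidHom.comp φ)
  have h := Subgroup.map_mono (f := hol V n) (perfect_of_good hx hη)
  rw [Subgroup.map_commutator, ← MonoidHom.range_comp] at h
  exact h

end Tower

end Pool.Agent.H387Z.QI
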