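import Mathlib
import Pool.Agent.H387Z.QI.Tower
import Pool.Agent.Helper375.EA.Grp

set_option autoImplicit false
set_option linter.style.haveILetI false

namespace Pool.Agent.H387Z.QI

open Subgroup
open scoped commutatorElement

variable {E : Type} [Group E]

theorem comm_mem_aux {P : Subgroup E} {p p' b b' : E} (hp : p ∈ P) (hp' : p' ∈ P)
    (hc : b * b' = b' * b) (hb : ∀ q ∈ P, b * q * b⁻¹ ∈ P) (hb' : ∀ q ∈ P, b' * q * b'⁻¹ ∈ P) :
    ⁅p * b, p' * b'⁆ ∈ P := by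
  have e : ⁅p * b, p' * b'⁆ = p * (b * p' * b⁻¹) * ((b * b') * b⁻¹ * p⁻¹ * b'⁻¹) * p'⁻¹ := by
    rw [commutatorElement_def]; group
  rw [e, hc]
  have e2 : b' * b * b⁻¹ * p⁻¹ * b'⁻¹ = b' * p⁻¹ * b'⁻¹ := by group
  rw [e2]
  exact mul_mem (mul_mem (mul_mem hp (hb _ hp')) (hb' _ (inv_mem hp))) (inv_mem hp')

theorem conj_comm_mem {H : Subgroup E} {b : E} (hb : ∀ q ∈ H, b * q * b⁻¹ ∈ H) :
    ∀ q ∈ ⁅H, H⁆, b * q * b⁻¹ ∈ ⁅H, H⁆ := by
  have h1 : H.map (MulAut.conj b).toMonoidHom ≤ H := by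
    rintro _ ⟨q, hq, rfl⟩; exact hb q hq
  have h2 : (⁅H, H⁆ : Subgroup E).map (MulAut.conj b).toMonoidHom ≤ ⁅H, H⁆ := by
    rw [map_commutator]; exact commutator_mono h1 h1
  intro q hq
  exact h2 ⟨q, hq, rfl⟩

theorem mem_sup_normal {H N : Subgroup E} [N.Normal] {x : E} (h : x ∈ H ⊔ N) :
    ∃ z ∈ H, ∃ a ∈ N, z * a = x := by
  have : x ∈ ((H ⊔ N : Subgroup E) : Set E) := h
  rw [mul_normal] at this
  exact this

theorem comm_le_self (H : Subgroup E) : ⁅H, H⁆ ≤ H := dS_anti H (Nat.zero_le 1)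

theorem le_sup_ker_iff {Q : Type} [Group Q] (f : E →* Q) (H K : Subgroup E) :
    H ≤ K ⊔ f.ker ↔ H.map f ≤ K.map f := by
  rw [map_le_iff_le_comap, comap_map_eq]

theorem pl_abelian (A : Subgroup E) [hAn : A.Normal] (hA : ∀ a ∈ A, ∀ b ∈ A, a * b = b * a)
    (T : Subgroup E) (hT : T.FG) (h : T ≤ ⁅T, T⁆ ⊔ A) :
    (⁅T, T⁆ : Subgroup E).FG ∧ ⁅T, T⁆ ≤ ⁅⁅T, T⁆, ⁅T, T⁆⁆ := by
  classical
  constructor
  · obtain ⟨S, hS⟩ := hT
    have hST : ∀ t ∈ S, t ∈ T := fun t ht => hS ▸ subset_closure ht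
    choose! z hz a ha hza using fun t (ht : t ∈ T) => mem_sup_normal (h ht)
    have haT : ∀ t ∈ T, a t ∈ T := by
      intro t ht
      have : a t = (z t)⁻¹ * t := by rw [eq_inv_mul_iff_mul_eq, hza t ht]
      rw [this]
      exact mul_mem (inv_mem (comm_le_self T (hz t ht))) ht
    let G0 : Finset E := S.image z ∪ (S ×ˢ S).image fun p => ⁅a p.1, z p.2⁆
    set P := closure (G0 : Set E) with hP
    have hzP : ∀ t ∈ S, z t ∈ P := fun t ht =>
      subset_closure (Finset.mem_union_left _ (Finset.mem_image_of_mem _ ht))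
    have hcP : ∀ s ∈ S, ∀ t ∈ S, ⁅a s, z t⁆ ∈ P := fun s hs t ht =>
      subset_closure (Finset.mem_union_right _
        (Finset.mem_image.mpr ⟨(s, t), Finset.mem_product.mpr ⟨hs, ht⟩, rfl⟩))
    have hcA : ∀ b ∈ A, ∀ y, ⁅b, y⁆ ∈ A := by
      intro b hb y
      rw [commutatorElement_def, mul_assoc, mul_assoc, ← mul_assoc y]
      exact mul_mem hb (hAn.conj_mem _ (inv_mem hb) y)
    let B : Subgroup E :=
      { carrier := {b | b ∈ A ∧ ∀ t ∈ S, ⁅b, z t⁆ ∈ P}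
        one_mem' := ⟨one_mem _, fun t _ => by simp⟩
        mul_mem' := by
          rintro b b' ⟨hb, h1⟩ ⟨hb', h2⟩
          refine ⟨mul_mem hb hb', fun t ht => ?_⟩
          have e : ⁅b * b', z t⁆ = b * ⁅b', z t⁆ * b⁻¹ * ⁅b, z t⁆ := by
            simp only [commutatorElement_def]; group
          rw [e, hA b hb _ (hcA b' hb' _), mul_inv_cancel_right]
          exact mul_mem (h2 t ht) (h1 t ht)
        inv_mem' := by
          rintro b ⟨hb, h1⟩
          refine ⟨inv_mem hb, fun t ht => ?_⟩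
          have e : ⁅b⁻¹, z t⁆ = b⁻¹ * ⁅b, z t⁆⁻¹ * b := by
            simp only [commutatorElement_def]; group
          rw [e, hA _ (inv_mem hb) _ (inv_mem (hcA b hb _)), inv_mul_cancel_right]
          exact inv_mem (h1 t ht) }
    have hnorm : ∀ b ∈ B, ∀ q ∈ P, b * q * b⁻¹ ∈ P := by
      rintro b ⟨hb, h1⟩ q hq
      have : P.map (MulAut.conj b).toMonoidHom ≤ P := by
        rw [hP, MonoidHom.map_closure, closure_le]
        rintro _ ⟨g, hg, rfl⟩
        rcases Finset.mem_union.mp hg with hg | hg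
        · obtain ⟨t, ht, rfl⟩ := Finset.mem_image.mp hg
          have e : (MulAut.conj b).toMonoidHom (z t) = ⁅b, z t⁆ * z t := by
            simp [commutatorElement_def]
          rw [e]
          exact mul_mem (h1 t ht) (hzP t ht)
        · obtain ⟨p, hp, rfl⟩ := Finset.mem_image.mp hg
          obtain ⟨hp1, hp2⟩ := Finset.mem_product.mp hp
          have e : (MulAut.conj b).toMonoidHom ⁅a p.1, z p.2⁆ = b * ⁅a p.1, z p.2⁆ * b⁻¹ := rfl
          rw [e, hA b hb _ (hcA _ (ha _ (hST _ hp1)) _), mul_inv_cancel_right]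
          exact hcP _ hp1 _ hp2
      exact this ⟨q, hq, rfl⟩
    have hdec : ∀ x ∈ T, ∃ p ∈ P, ∃ b ∈ B, p * b = x := by
      intro x hx
      rw [← hS] at hx
      induction hx using closure_induction with
      | mem t ht =>
        exact ⟨z t, hzP t ht, a t, ⟨ha t (hST t ht), fun s hs => hcP t ht s hs⟩, hza t (hST t ht)⟩
      | one => exact ⟨1, one_mem _, 1, one_mem _, mul_one _⟩
      | mul x y _ _ h1 h2 =>
        obtain ⟨p, hp, b, hb, rfl⟩ := h1
        obtain ⟨p', hp', b', hb', rfl⟩ := h2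
        exact ⟨p * (b * p' * b⁻¹), mul_mem hp (hnorm b hb p' hp'), b * b', mul_mem hb hb',
          by group⟩
      | inv x _ h1 =>
        obtain ⟨p, hp, b, hb, rfl⟩ := h1
        exact ⟨b⁻¹ * p⁻¹ * b⁻¹⁻¹, hnorm _ (inv_mem hb) _ (inv_mem hp), b⁻¹, inv_mem hb, by group⟩
    refine ⟨G0, le_antisymm ?_ ?_⟩
    · rw [closure_le]
      intro g hg
      rcases Finset.mem_union.mp hg with hg | hg
      · obtain ⟨t, ht, rfl⟩ := Finset.mem_image.mp hg
        exact hz t (hST t ht)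
      · obtain ⟨p, hp, rfl⟩ := Finset.mem_image.mp hg
        obtain ⟨hp1, hp2⟩ := Finset.mem_product.mp hp
        exact commutator_mem_commutator (haT _ (hST _ hp1)) (comm_le_self T (hz _ (hST _ hp2)))
    · rw [commutator_le]
      intro x hx y hy
      obtain ⟨p, hp, b, hb, rfl⟩ := hdec x hx
      obtain ⟨p', hp', b', hb', rfl⟩ := hdec y hy
      exact comm_mem_aux hp hp' (hA b hb.1 b' hb'.1) (hnorm b hb) (hnorm b' hb')
  · have h2 : T ≤ ⁅⁅T, T⁆, ⁅T, T⁆⁆ ⊔ A := by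
      rw [← QuotientGroup.ker_mk' A, le_sup_ker_iff] at h ⊢
      rw [map_commutator]
      refine h.trans ?_
      rw [map_commutator (H₁ := T)] at h ⊢
      exact commutator_mono h h
    have hn : ∀ b ∈ T, ∀ q ∈ ⁅⁅T, T⁆, ⁅T, T⁆⁆, b * q * b⁻¹ ∈ ⁅⁅T, T⁆, ⁅T, T⁆⁆ := fun b hb =>
      conj_comm_mem (conj_comm_mem fun q hq => mul_mem (mul_mem hb hq) (inv_mem hb))
    have hle : ⁅⁅T, T⁆, ⁅T, T⁆⁆ ≤ T := (comm_le_self _).trans (comm_le_self _)
    rw [commutator_le]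
    intro x hx y hy
    obtain ⟨p, hp, b, hb, rfl⟩ := mem_sup_normal (h2 hx)
    obtain ⟨p', hp', b', hb', rfl⟩ := mem_sup_normal (h2 hy)
    exact comm_mem_aux hp hp' (hA b hb b' hb') (hn b (by simpa using mul_mem (inv_mem (hle hp)) hx))
      (hn b' (by simpa using mul_mem (inv_mem (hle hp')) hy))

theorem fg_lift {Q : Type} [Group Q] (f : E →* Q) (H : Subgroup E) (h : (H.map f).FG) :
    ∃ P : Subgroup E, P.FG ∧ P ≤ H ∧ P.map f = H.map f := by
  classical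
  obtain ⟨S, hS⟩ := h
  have : ∀ s ∈ S, ∃ x ∈ H, f x = s := fun s hs => by
    have : s ∈ H.map f := hS ▸ subset_closure hs
    exact this
  choose! g hg hfg using this
  refine ⟨closure (S.image g : Finset E), ⟨_, rfl⟩, ?_, ?_⟩
  · rw [closure_le]
    intro x hx
    obtain ⟨s, hs, rfl⟩ := Finset.mem_image.mp hx
    exact hg s hs
  · rw [MonoidHom.map_closure, ← hS]
    congr 1
    ext y
    simp only [Finset.coe_image, Set.mem_image, Finset.mem_coe]
    constructor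
    · rintro ⟨_, ⟨s, hs, rfl⟩, rfl⟩
      rw [hfg s hs]; exact hs
    · intro hy
      exact ⟨g y, ⟨y, hy, rfl⟩, hfg y hy⟩

theorem pl_solvable (N : Subgroup E) [N.Normal] (T : Subgroup E) (hT : T.FG)
    (h : T ≤ ⁅T, T⁆ ⊔ N) : ∀ j, ∃ P : Subgroup E, P.FG ∧ P ≤ ⁅P, P⁆ ⊔ dS N j ∧ T ≤ P ⊔ N
  | 0 => ⟨T, hT, h, le_sup_left⟩
  | j + 1 => by
    obtain ⟨P, hP, h1, h2⟩ := pl_solvable N T hT h j
    haveI := dS_normal N j
    haveI := dS_normal N (j + 1)
    let f := QuotientGroup.mk' (dS N (j + 1))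
    haveI : ((dS N j).map f).Normal := Normal.map inferInstance f (QuotientGroup.mk'_surjective _)
    obtain ⟨k1, k2⟩ := pl_abelian ((dS N j).map f) (by
      rintro _ ⟨a, ha, rfl⟩ _ ⟨b, hb, rfl⟩
      rw [← commutatorElement_eq_one_iff_mul_comm, ← map_commutatorElement]
      refine (QuotientGroup.eq_one_iff _).mpr ?_
      rw [dS_succ]
      exact commutator_mem_commutator ha hb) (P.map f) (fg_map hP f) (by
      rw [← map_commutator, ← Subgroup.map_sup]
      exact map_mono h1)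
    rw [← map_commutator] at k1 k2
    obtain ⟨P', hP', h3, h4⟩ := fg_lift f _ k1
    refine ⟨P', hP', ?_, h2.trans (sup_le (h1.trans (sup_le ?_ ?_)) le_sup_right)⟩
    · rw [← QuotientGroup.ker_mk' (dS N (j + 1)), le_sup_ker_iff, map_commutator, h4]
      exact k2
    · have : ⁅P, P⁆ ≤ P' ⊔ dS N (j + 1) := by
        rw [← QuotientGroup.ker_mk' (dS N (j + 1)), le_sup_ker_iff, h4]
      exact this.trans (sup_le_sup_left (dS_anti N (Nat.zero_le _)) _)
    · exact (dS_anti N (Nat.zero_le j)).trans le_sup_right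

theorem dS_map {Q : Type} [Group Q] (f : E →* Q) (N : Subgroup E) :
    ∀ j, (dS N j).map f = dS (N.map f) j
  | 0 => rfl
  | j + 1 => by rw [dS_succ, dS_succ, map_commutator, dS_map f N j]

theorem dS_stab [Finite E] (N : Subgroup E) : ∃ j, dS N j ≤ ⁅dS N j, dS N j⁆ := by
  obtain ⟨_, ⟨j, rfl⟩, hj⟩ := (wellFounded_lt (α := Subgroup E)).has_min (Set.range (dS N))
    ⟨_, 0, rfl⟩
  refine ⟨j, ?_⟩
  rw [← dS_succ]
  exact (eq_of_le_of_not_lt (dS_anti N (Nat.le_succ j)) (hj _ ⟨j + 1, rfl⟩)).ge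

theorem dS_top_perfect (h : commutator E = ⊤) : ∀ j, dS (⊤ : Subgroup E) j = ⊤
  | 0 => rfl
  | j + 1 => by rw [dS_succ, dS_top_perfect h j]; exact h

/-- perfect lifting -/
theorem perfect_lift {B V : Type} [Group B] [Finite B] [Group V] (β : E →* B) (ψ : E →* V)
    (hψ : Function.Surjective ψ) (hk : β.ker ≤ ψ.ker) (hV : commutator V = ⊤) (c : ℕ) :
    ∃ P : Subgroup E, P.FG ∧ P ≤ ⁅P, P⁆ ⊔ dS β.ker c ∧ P.map ψ = ⊤ := by
  obtain ⟨j, hj⟩ := dS_stab ((⊤ : Subgroup E).map β)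
  rw [← dS_map] at hj
  obtain ⟨T, hT, -, h2⟩ := fg_lift β (dS ⊤ j)
    ((Group.fg_iff_subgroup_fg _).mp Group.fg_of_finite)
  obtain ⟨P, hP, h3, h4⟩ := pl_solvable β.ker T hT (by
    rw [le_sup_ker_iff, map_commutator, h2]; exact hj) c
  refine ⟨P, hP, h3, ?_⟩
  have h5 : dS ⊤ j ≤ T ⊔ β.ker := by rw [le_sup_ker_iff, h2]
  have h6 : dS ⊤ j ≤ P ⊔ ψ.ker :=
    h5.trans (sup_le (h4.trans (sup_le_sup_left hk _)) (hk.trans le_sup_right))
  rw [le_sup_ker_iff, dS_map, map_top_of_surjective _ hψ, dS_top_perfect hV] at h6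
  exact top_le_iff.mp h6

theorem fol_of_virt (K : Subgroup E) [K.Normal] [K.FiniteIndex] {c : ℕ} (h : dS K c = ⊥) :
    HJI.Fol.Fol E := by
  refine HJI.Fol.fol_ext (QuotientGroup.mk' K) ?_ HJI.Fol.fol_of_finite
  rw [QuotientGroup.ker_mk']
  haveI := solvable_of_dS K h
  exact Pool.Agent.Helper375.EA.fol_of_solvable

theorem commutator_eq_top_of_le {H : Subgroup E} (h : H ≤ ⁅H, H⁆) : commutator H = ⊤ := by
  rw [eq_top_iff]
  intro x _
  have := h x.2
  rw [← map_subtype_commutator] at this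
  obtain ⟨y, hy, e⟩ := this
  rw [← Subtype.ext e]
  exact hy

theorem exists_minimal_perfect : ∃ (V : Type) (_ : Group V), Finite V ∧ Nontrivial V ∧
    commutator V = ⊤ ∧ ∀ H : Subgroup V, H ≤ ⁅H, H⁆ → H = ⊥ ∨ H = ⊤ := by
  let G := Equiv.Perm (Fin 5)
  have hne : {H : Subgroup G | H ≠ ⊥ ∧ H ≤ ⁅H, H⁆}.Nonempty := by
    obtain ⟨j, hj⟩ := dS_stab (⊤ : Subgroup G)
    refine ⟨_, fun h => ?_, hj⟩
    haveI := solvable_of_dS _ h
    exact Equiv.Perm.fin_5_not_solvable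
      (Group.isSolvable_of_surjective (f := (topEquiv (G := G)).toMonoidHom) topEquiv.surjective)
  obtain ⟨H, ⟨h1, h2⟩, h3⟩ := (wellFounded_lt (α := Subgroup G)).has_min _ hne
  refine ⟨H, inferInstance, inferInstance, (nontrivial_iff_ne_bot H).mpr h1,
    commutator_eq_top_of_le h2, fun K hK => ?_⟩
  by_cases hb : K = ⊥
  · exact Or.inl hb
  · right
    have h4 := h3 (K.map H.subtype) ⟨by
      rwa [Ne, map_eq_bot_iff_of_injective _ H.subtype_injective], by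
      rw [← map_commutator]; exact map_mono hK⟩
    have h5 := eq_of_le_of_not_lt (map_subtype_le K) h4
    rw [eq_top_iff]
    intro x _
    have : (x : G) ∈ K.map H.subtype := by rw [h5]; exact x.2
    obtain ⟨y, hy, e⟩ := this
    rw [← Subtype.ext e]
    exact hy

end Pool.Agent.H387Z.QI
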