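import Mathlib
import Pool.Agent.H387Z.QI.Tower
import Pool.Agent.Helper375.EA.Grp

set_option autoImplicit false
set_option linter.style.haveILetI false

namespace Pool.Agent.H387Z.QI

open MonoidAlgebra

theorem exists_functional {X : Type} (T : Finset ℤ[X]) :
    ∃ l : ℤ[X] →+ ℤ, ∀ t ∈ T, t ≠ 0 → l t ≠ 0 := by
  classical
  induction T using Finset.induction_on with
  | empty => exact ⟨0, by simp⟩
  | insert t T _ ih =>
    obtain ⟨l, hl⟩ := ih
    by_cases h : t ≠ 0 → l t ≠ 0
    · refine ⟨l, fun s hs => ?_⟩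
      rcases Finset.mem_insert.mp hs with rfl | hs
      · exact h
      · exact hl s hs
    · push Not at h
      obtain ⟨h0, h1⟩ := h
      obtain ⟨p, hp⟩ : ∃ p, t.coeff p ≠ 0 := by
        by_contra hc
        push Not at hc
        exact h0 (by ext p; simpa using hc p)
      let ev : ℤ[X] →+ ℤ := (Finsupp.applyAddHom p).comp coeffAddEquiv.toAddMonoidHom
      have hev : ∀ s, ev s = s.coeff p := fun s => rfl
      let N : ℤ := (∑ s ∈ T, |s.coeff p|) + 1
      refine ⟨N • l + ev, fun s hs hs0 => ?_⟩
      rcases Finset.mem_insert.mp hs with rfl | hs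
      · simpa [h1, hev] using hp
      · have h2 : |s.coeff p| < N :=
          Int.lt_add_one_iff.mpr
            (Finset.single_le_sum (f := fun s : ℤ[X] => |s.coeff p|) (fun _ _ => abs_nonneg _) hs)
        have h3 := hl s hs hs0
        intro h4
        simp only [AddMonoidHom.add_apply, AddMonoidHom.smul_apply, smul_eq_mul, hev] at h4
        have h5 : s.coeff p = -(N * l s) := by linarith
        rw [h5, abs_neg, abs_mul] at h2
        have h6 : 1 ≤ |l s| := Int.one_le_abs h3
        have h7 : 0 ≤ |N| := abs_nonneg _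
        have h8 := le_abs_self N
        nlinarith

section Strebel

variable {E D : Type} [Group E] [Group D] (q : E →* D) (l : E → ℤ)

/-- moments -/
noncomputable def mom (r : ℕ) : ℤ[E] →+ ℤ[D] := lin fun g => single (q g) (l g ^ r)

theorem mom_single (r : ℕ) (g : E) (z : ℤ) :
    mom q l r (single g z) = single (q g) (z * l g ^ r) := by
  simp [mom, lin_single]

theorem mom_mul (τ : D → E → ℤ) (hτ : ∀ g h, l (g * h) = l g + τ (q g) h) (r : ℕ) (a : ℤ[E])
    (ha : ∀ s < r, mom q l s a = 0) (y : ℤ[E]) : mom q l r (a * y) = mom q l r a * pf q y := by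
  induction y using MonoidAlgebra.induction_linear with
  | zero => simp
  | add y y' h h' => simp only [mul_add, map_add, h, h']
  | single h c =>
    let T : ℕ → ℤ[D] →+ ℤ[D] := fun s =>
      lin fun d => single (d * q h) (τ d h ^ (r - s) * (r.choose s) * c)
    have key : ∀ a : ℤ[E], mom q l r (a * single h c) =
        ∑ s ∈ Finset.range (r + 1), T s (mom q l s a) := by
      intro a
      induction a using MonoidAlgebra.induction_linear with
      | zero => simp
      | add a b ha hb => simp only [add_mul, map_add, ha, hb, Finset.sum_add_distrib]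
      | single g z =>
        simp only [single_mul_single, mom_single, T, lin_single, smul_single, map_mul q, hτ, add_pow,
          smul_eq_mul]
        rw [Finset.mul_sum]
        have := map_sum (singleAddHom (R := ℤ) (q g * q h))
          (fun s => z * c * (l g ^ s * τ (q g) h ^ (r - s) * (r.choose s))) (Finset.range (r + 1))
        simp only [singleAddHom_apply] at this
        rw [this]
        refine Finset.sum_congr rfl fun s _ => ?_
        congr 1
        ring
    rw [key, Finset.sum_range_succ, Finset.sum_eq_zero, zero_add, pf_single]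
    · generalize mom q l r a = b
      induction b using MonoidAlgebra.induction_linear with
      | zero => simp
      | add a b ha hb => simp only [add_mul, map_add, ha, hb]
      | single d z => simp [T, lin_single, single_mul_single]
    · intro s hs
      rw [ha s (Finset.mem_range.mp hs), map_zero]

open Classical in
theorem mom_coeff (r : ℕ) (a : ℤ[E]) (d : D) :
    (mom q l r a).coeff d = a.coeff.sum fun g z => if q g = d then z * l g ^ r else 0 := by
  induction a using MonoidAlgebra.induction_linear with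
  | zero => simp
  | add a b ha hb =>
    rw [map_add, coeff_add, Finsupp.add_apply, ha, hb, coeff_add, Finsupp.sum_add_index']
    · intro g; simp
    · intro g x y; split_ifs <;> ring
  | single g z =>
    rw [mom_single, coeff_single_apply, coeff_single, Finsupp.sum_single_index]
    simp

theorem mom_ne (a : ℤ[E]) (ha : a ≠ 0)
    (hinj : ∀ g ∈ a.coeff.support, ∀ g' ∈ a.coeff.support, q g = q g' → l g = l g' → g = g') :
    ∃ r, mom q l r a ≠ 0 := by
  classical
  by_contra hc
  push Not at hc
  obtain ⟨g0, hg0⟩ : a.coeff.support.Nonempty := by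
    rw [Finsupp.support_nonempty_iff]; simpa using ha
  set S := a.coeff.support.filter (fun g => q g = q g0) with hS
  have h1 : ∀ r, ∑ g ∈ S, a.coeff g * l g ^ r = 0 := by
    intro r
    have := mom_coeff q l r a (q g0)
    rw [hc r, Finsupp.sum, ← Finset.sum_filter] at this
    simpa using this.symm
  have h2 : ∀ p : Polynomial ℤ, ∑ g ∈ S, a.coeff g * p.eval (l g) = 0 := by
    intro p
    simp only [Polynomial.eval_eq_sum_range, Finset.mul_sum]
    rw [Finset.sum_comm]
    refine Finset.sum_eq_zero fun i _ => ?_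
    have := congrArg (fun z => p.coeff i * z) (h1 i)
    simp only [Finset.mul_sum, mul_zero] at this
    rw [← this]
    exact Finset.sum_congr rfl fun g _ => by ring
  have h3 := h2 (∏ g ∈ S.erase g0, (Polynomial.X - Polynomial.C (l g)))
  have hg0S : g0 ∈ S := Finset.mem_filter.mpr ⟨hg0, rfl⟩
  rw [Finset.sum_eq_single g0] at h3
  · rcases mul_eq_zero.mp h3 with h | h
    · exact Finsupp.mem_support_iff.mp hg0 h
    · rw [Polynomial.eval_prod, Finset.prod_eq_zero_iff] at h
      obtain ⟨g, hg, h⟩ := h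
      obtain ⟨hne, hg⟩ := Finset.mem_erase.mp hg
      obtain ⟨hg1, hg2⟩ := Finset.mem_filter.mp hg
      simp only [Polynomial.eval_sub, Polynomial.eval_X, Polynomial.eval_C] at h
      exact hne (hinj g hg1 g0 hg0 hg2 (by linarith))
  · intro g hg hne
    rw [Polynomial.eval_prod, Finset.prod_eq_zero (Finset.mem_erase.mpr ⟨hne, hg⟩) (by simp),
      mul_zero]
  · intro h; exact absurd hg0S h

end Strebel

variable {D V : Type} [Group D] [Group V]

/-- linear independence over the group ring of the kernel of `π` -/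
def Indep (π : D →* V) {ι : Type} [Fintype ι] {k : ℕ} (v : ι → Fin k → ℤ[D]) : Prop :=
  ∀ a : ι → ℤ[D], (∀ i, ∀ g ∈ (a i).coeff.support, π g = 1) →
    (∀ l, ∑ i, a i * v i l = 0) → ∀ i, a i = 0

theorem strebel (π : D →* V) {ι : Type} [Fintype ι] {k : ℕ} (w : ι → Fin k → ℤ[Mag D])
    (h : Indep π fun i l => pf Mag.proj (w i l)) : Indep (π.comp Mag.proj) w := by
  classical
  intro a ha hs
  by_contra hc
  push Not at hc
  let S : Finset (Mag D) := Finset.univ.biUnion fun i => (a i).coeff.support
  obtain ⟨lam, hlam⟩ := exists_functional ((S ×ˢ S).image fun p => p.1.m - p.2.m)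
  let l : Mag D → ℤ := fun g => lam g.m
  have hτ : ∀ g h : Mag D, l (g * h) = l g +
      (fun (d : D) (h : Mag D) => lam (single (d, d) 1 * h.m)) (Mag.proj g) h := by
    intro g h
    simp only [l, Mag.mul_m, map_add]; rfl
  have hex : ∃ r, ∃ i, mom Mag.proj l r (a i) ≠ 0 := by
    obtain ⟨i, hi⟩ := hc
    obtain ⟨r, hr⟩ := mom_ne Mag.proj l (a i) hi (by
      intro g hg g' hg' h1 h2
      refine Mag.ext ?_ h1
      by_contra hne
      have hm : ∀ g ∈ (a i).coeff.support, g ∈ S := fun g hg =>
        Finset.mem_biUnion.mpr ⟨i, Finset.mem_univ _, hg⟩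
      refine hlam (g.m - g'.m) (Finset.mem_image.mpr ⟨(g, g'),
        Finset.mem_product.mpr ⟨hm g hg, hm g' hg'⟩, rfl⟩) (sub_ne_zero.mpr hne) ?_
      rw [map_sub]; exact sub_eq_zero.mpr h2)
    exact ⟨r, i, hr⟩
  obtain ⟨i0, hi0⟩ := Nat.find_spec hex
  refine hi0 (h (fun i => mom Mag.proj l (Nat.find hex) (a i)) ?_ ?_ i0)
  · intro i d hd
    rw [Finsupp.mem_support_iff, mom_coeff] at hd
    obtain ⟨g, hg, hne⟩ := Finset.exists_ne_zero_of_sum_ne_zero hd
    have : Mag.proj g = d := by
      by_contra h'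
      exact hne (if_neg h')
    rw [← this]
    exact ha i g hg
  · intro j
    have := congrArg (mom Mag.proj l (Nat.find hex)) (hs j)
    rw [map_sum, map_zero] at this
    refine Eq.trans ?_ this
    refine Finset.sum_congr rfl fun i _ => (mom_mul Mag.proj l
      (fun (d : D) (h : Mag D) => lam (single (d, d) 1 * h.m)) hτ _ _ ?_ _).symm
    intro s hs
    have := Nat.find_min hex hs
    push Not at this
    exact this i

theorem tf_of_ro (π : D →* V) (h : RO π.ker) (a y : ℤ[D]) (ha : ∀ g ∈ a.coeff.support, π g = 1)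
    (hy : y ≠ 0) (hay : a * y = 0) : a = 0 := by
  classical
  haveI := h.uniqueProds
  by_contra ha0
  obtain ⟨y0, hy0⟩ : y.coeff.support.Nonempty := by
    rw [Finsupp.support_nonempty_iff]; simpa using hy
  obtain ⟨a0, ha0'⟩ : a.coeff.support.Nonempty := by
    rw [Finsupp.support_nonempty_iff]; simpa using ha0
  let A : Finset π.ker := a.coeff.support.subtype _
  let B : Finset π.ker := (y.coeff.support.image fun t => t * y0⁻¹).subtype _
  have hA : A.Nonempty := ⟨⟨a0, ha a0 ha0'⟩, Finset.mem_subtype.mpr ha0'⟩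
  have hB : B.Nonempty :=
    ⟨1, Finset.mem_subtype.mpr (Finset.mem_image.mpr ⟨y0, hy0, by simp⟩)⟩
  obtain ⟨α, hα, β, hβ, hu⟩ := UniqueProds.uniqueMul_of_nonempty hA hB
  have hα' : (α : D) ∈ a.coeff.support := Finset.mem_subtype.mp hα
  obtain ⟨t, ht, htβ⟩ := Finset.mem_image.mp (Finset.mem_subtype.mp hβ)
  have hu' : UniqueMul a.coeff.support y.coeff.support (α : D) t := by
    intro a' y' ha' hy' e
    have e2 : a' * (y' * y0⁻¹) = α * β := by rw [← mul_assoc, e, ← htβ, mul_assoc]
    have hk : y' * y0⁻¹ ∈ π.ker := by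
      have := congrArg π e2
      rw [map_mul π a', map_mul π (α : D), ha a' ha', α.2, β.2, one_mul, one_mul] at this
      exact this
    obtain ⟨h1, h2⟩ := hu (a := ⟨a', ha a' ha'⟩) (b := ⟨y' * y0⁻¹, hk⟩)
      (Finset.mem_subtype.mpr ha') (Finset.mem_subtype.mpr (Finset.mem_image.mpr ⟨y', hy', rfl⟩))
      (Subtype.ext e2)
    refine ⟨congrArg Subtype.val h1, ?_⟩
    have h3 : y' * y0⁻¹ = β := congrArg Subtype.val h2
    exact mul_right_cancel (h3.trans htβ.symm)
  have := coeff_mul_mul_of_uniqueMul hu'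
  rw [hay] at this
  rcases mul_eq_zero.mp this.symm with h | h
  · exact Finsupp.mem_support_iff.mp hα' h
  · exact Finsupp.mem_support_iff.mp ht h

theorem indep_bound [Finite V] (π : D →* V) (hF : HJI.Fol.Fol π.ker) {n k : ℕ}
    (v : Fin n → Fin k → ℤ[D]) (h : Indep π v) : n ≤ k * Nat.card V := by
  classical
  haveI := Fintype.ofFinite V
  let r : V → D := fun x => if h : ∃ g, π g = x then h.choose else 1
  have hr : ∀ g, π (r (π g)) = π g := fun g => by
    have h : ∃ g', π g' = π g := ⟨g, rfl⟩
    simp only [r, dif_pos h]; exact h.choose_spec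
  let nn : D → π.ker := fun g => ⟨r (π g) * g⁻¹, by simp [MonoidHom.mem_ker, hr]⟩
  let S : Finset D := Finset.univ.biUnion fun p : Fin n × Fin k => (v p.1 p.2).coeff.support
  let S0 : Finset π.ker := S.image nn
  set M : ℕ := k * Fintype.card V with hM
  let ε : ℝ := 1 / (((S0.card : ℝ) + 1) * (M + 1))
  obtain ⟨T, hT, hTS⟩ := hF S0 ε (by positivity)
  let T' : Finset π.ker :=
    T ∪ S0.biUnion fun s => (T.filter fun t => s * t ∉ T).image fun t => s * t
  have hT' : (T'.card : ℝ) ≤ T.card + S0.card * (ε * T.card) := by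
    have h1 : T'.card ≤ T.card + ∑ s ∈ S0, (T.filter fun t => s * t ∉ T).card :=
      (Finset.card_union_le _ _).trans (Nat.add_le_add_left
        (Finset.card_biUnion_le.trans (Finset.sum_le_sum fun s _ => Finset.card_image_le)) _)
    have h2 : ∑ s ∈ S0, ((T.filter fun t => s * t ∉ T).card : ℝ) ≤ S0.card * (ε * T.card) := by
      rw [← nsmul_eq_mul]
      refine Finset.sum_le_card_nsmul _ _ _ fun s hs => ?_
      refine le_trans (le_of_eq ?_) (hTS s hs)
      congr 2
      ext t
      simp only [Finset.mem_filter]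
    have h3 : (T'.card : ℝ) ≤ T.card + ∑ s ∈ S0, ((T.filter fun t => s * t ∉ T).card : ℝ) := by
      exact_mod_cast h1
    linarith
  have hmem : ∀ s ∈ S0, ∀ t ∈ T, s * t ∈ T' := by
    intro s hs t ht
    by_cases h : s * t ∈ T
    · exact Finset.mem_union_left _ h
    · exact Finset.mem_union_right _ (Finset.mem_biUnion.mpr ⟨s, hs,
        Finset.mem_image.mpr ⟨t, Finset.mem_filter.mpr ⟨ht, h⟩, rfl⟩⟩)
  let Y : Finset D := (T' ×ˢ (Finset.univ : Finset V)).image fun p => (p.1 : D)⁻¹ * r p.2
  have hY : Y.card ≤ T'.card * Fintype.card V := by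
    refine Finset.card_image_le.trans ?_
    simp
  let A : (Fin n × T → ℤ) → Fin n → ℤ[D] := fun c i =>
    ∑ t : T, single ((t : π.ker) : D)⁻¹ (c (i, t))
  have hAs : ∀ c i, ∀ g ∈ (A c i).coeff.support, ∃ t ∈ T, g = ((t : π.ker) : D)⁻¹ := by
    intro c i g hg
    rw [Finsupp.mem_support_iff] at hg
    simp only [A, MonoidAlgebra.coeff_sum, Finsupp.finset_sum_apply] at hg
    obtain ⟨t, -, ht⟩ := Finset.exists_ne_zero_of_sum_ne_zero hg
    refine ⟨t, t.2, ?_⟩
    by_contra hne
    exact ht (by rw [coeff_single_apply, if_neg (Ne.symm hne)])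
  have hAc : ∀ c i (t : T), (A c i).coeff ((t : π.ker) : D)⁻¹ = c (i, t) := by
    intro c i t
    simp only [A, MonoidAlgebra.coeff_sum, Finsupp.finset_sum_apply]
    rw [Finset.sum_eq_single t]
    · simp
    · intro b _ hb
      rw [coeff_single_apply, if_neg]
      intro e
      exact hb (Subtype.ext (Subtype.ext (inv_injective e)))
    · simp
  let Φ : (Fin n × T → ℤ) →+ (Fin k × Y → ℤ) :=
    { toFun := fun c p => (∑ i, A c i * v i p.1).coeff p.2
      map_zero' := by ext p; simp [A]
      map_add' := by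
        intro c c'
        ext p
        simp [A, single_add, Finset.sum_add_distrib, add_mul] }
  have hΦ : Function.Injective Φ := by
    rw [injective_iff_map_eq_zero]
    intro c hc
    have h0 := h (A c) (fun i g hg => by
      obtain ⟨t, -, rfl⟩ := hAs c i g hg
      rw [map_inv, t.2, inv_one]) (fun l => by
      ext g
      by_cases hg : g ∈ Y
      · exact congrFun hc (l, ⟨g, hg⟩)
      · simp only [MonoidAlgebra.coeff_sum, Finsupp.finset_sum_apply, coeff_zero, Finsupp.coe_zero,
          Pi.zero_apply]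
        refine Finset.sum_eq_zero fun i _ => ?_
        by_contra hne
        have := support_coeff_mul_subset (A c i) (v i l) (Finsupp.mem_support_iff.mpr hne)
        obtain ⟨a, ha, b, hb, rfl⟩ := Finset.mem_mul.mp this
        obtain ⟨t, ht, rfl⟩ := hAs c i a ha
        have hb' : b ∈ S := Finset.mem_biUnion.mpr ⟨(i, l), Finset.mem_univ _, hb⟩
        refine hg (Finset.mem_image.mpr ⟨(nn b * t, π b), Finset.mem_product.mpr
          ⟨hmem _ (Finset.mem_image_of_mem _ hb') _ ht, Finset.mem_univ _⟩, ?_⟩)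
        simp [nn, mul_assoc])
    ext ⟨i, t⟩
    rw [← hAc c i t, h0 i]; rfl
  have hrk := LinearMap.finrank_le_finrank_of_injective (f := Φ.toIntLinearMap) hΦ
  simp only [Module.finrank_fintype_fun_eq_card, Fintype.card_prod, Fintype.card_fin,
    Fintype.card_coe] at hrk
  have h1 : n * T.card ≤ M * T'.card := by
    refine hrk.trans ((Nat.mul_le_mul_left k hY).trans (le_of_eq ?_))
    rw [hM]; ring
  have h2 : (n : ℝ) * T.card ≤ M * T'.card := by exact_mod_cast h1
  have hTpos : (0 : ℝ) < T.card := by exact_mod_cast hT.card_pos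
  have h3 : (n : ℝ) ≤ M * (1 + S0.card * ε) := by
    have h4 : (n : ℝ) * T.card ≤ (M * (1 + S0.card * ε)) * T.card := by
      have := mul_le_mul_of_nonneg_left hT' (Nat.cast_nonneg (α := ℝ) M)
      nlinarith
    exact le_of_mul_le_mul_right h4 hTpos
  have h5 : (M : ℝ) * (S0.card * ε) < 1 := by
    have : (M : ℝ) * (S0.card * ε) = (M * S0.card) / (((S0.card : ℝ) + 1) * (M + 1)) := by
      simp only [ε]; ring
    rw [this, div_lt_one (by positivity)]
    have h6 : (0 : ℝ) ≤ M := Nat.cast_nonneg _
    have h7 : (0 : ℝ) ≤ S0.card := Nat.cast_nonneg _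
    nlinarith
  have h6 : (n : ℝ) < M + 1 := by nlinarith
  have h7 : n < M + 1 := by exact_mod_cast h6
  rw [Nat.card_eq_fintype_card]
  omega

theorem rank_step [Finite V] (π : D →* V) (hro : RO π.ker) {Γ : Type} [Group Γ] (hN : NI Γ)
    {k : ℕ} {x : Fin k → Γ} (hx : Subgroup.closure (Set.range x) = ⊤) (φ : Γ →* Mag (Mag D))
    (hφ : ∃ g, π (φ g).d.d ≠ 1) {η η' : Matrix (Fin k) (Fin k) ℤ[Γ]}
    (hη : Good x (Mag.proj.comp φ) η) (hη' : Good x φ η') {j : ℕ}
    (ih : ∃ w : Fin j → Fin k → ℤ[D], Indep π fun i l =>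
      ∑ m, w i m * pf (Mag.proj.comp (Mag.proj.comp φ)) (η m l)) :
    ∃ w : Fin (j + 1) → Fin k → ℤ[Mag D], Indep (π.comp Mag.proj) fun i l =>
      ∑ m, w i m * pf (Mag.proj.comp φ) (η' m l) := by
  classical
  set φ1 : Γ →* Mag D := Mag.proj.comp φ with hφ1
  set φ2 : Γ →* D := Mag.proj.comp φ1 with hφ2
  let A : Matrix (Fin k) (Fin k) ℤ[D] := η.map (pf φ2)
  let B : Matrix (Fin k) (Fin k) ℤ[D] := η'.map (pf φ2)
  have hBA : B * A = A := by
    have : (1 - η').map (pf φ2) * A = 0 := by
      ext1 i l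
      have h1 := hη.ker ((1 - η') i) (by
        simp only [Matrix.sub_apply, sub_mul, Finset.sum_sub_distrib, map_sub]
        rw [hη'.d1 i, sub_eq_zero]
        congr 1
        simp [Matrix.one_apply]) l
      simp only [map_sum, map_mul] at h1
      exact h1
    rw [Matrix.map_sub _ (map_sub _), Matrix.map_one _ (map_zero _) (map_one _), sub_mul, one_mul,
      sub_eq_zero] at this
    exact this.symm
  have hB : (1 - B) * B ≠ 0 := by
    intro h0
    rw [sub_mul, one_mul, sub_eq_zero] at h0
    have h1 : B.map (pf π) = 0 := swan _ (by rw [← Matrix.map_mul, ← h0]) (fun i l => by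
      simp only [B, Matrix.map_apply, aug_pf, hη'.aug])
    have h2 : ∀ i, π (φ2 (x i)) = 1 := by
      intro i
      have h3 := congrArg (fun a => pf π (pf Mag.proj a)) (hη'.d1 i)
      simp only [← hφ1, pf_comp, map_sum, map_mul, map_sub, map_one, pf_single] at h3
      have h4 : ∀ l, pf ((π.comp Mag.proj).comp φ1) (η' i l) = 0 := by
        intro l
        have := congrFun (congrFun h1 i) l
        simp only [B, Matrix.map_apply, pf_comp] at this
        exact this
      simp only [← MonoidHom.comp_assoc, h4, zero_mul, Finset.sum_const_zero] at h3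
      have h5 := (sub_eq_zero.mp h3.symm)
      rw [one_def] at h5
      exact of_injective (R := ℤ) h5
    obtain ⟨g, hg⟩ := hφ
    have : Subgroup.closure (Set.range x) ≤ (π.comp φ2).ker := by
      rw [Subgroup.closure_le]
      rintro _ ⟨i, rfl⟩
      exact h2 i
    exact hg (this (hx ▸ Subgroup.mem_top g))
  obtain ⟨i0, l0, hil⟩ : ∃ i l, ((1 - B) * B) i l ≠ 0 := by
    by_contra hc
    push Not at hc
    exact hB (by ext1 i l; exact hc i l)
  obtain ⟨w, hw⟩ := ih
  let W : Matrix (Fin (j + 1)) (Fin k) ℤ[D] := Matrix.of (Fin.cons ((1 - B) i0) w)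
  have hW : Indep π (W * B) := by
    intro a ha hs
    have h1 : ∀ l, ∑ i, a i * (W * A) i l = 0 := by
      intro l
      rw [← hBA, ← Matrix.mul_assoc]
      simp only [Matrix.mul_apply (M := W * B), Finset.mul_sum, ← mul_assoc]
      rw [Finset.sum_comm]
      refine Finset.sum_eq_zero fun m _ => ?_
      rw [← Finset.sum_mul, hs m, zero_mul]
    have h2 : ∀ l, (W * A) 0 l = 0 := by
      intro l
      have : ((1 - B) * A) i0 l = 0 := by rw [sub_mul, hBA, one_mul, sub_self]; rfl
      exact this
    have h3 : ∀ i : Fin j, a i.succ = 0 := by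
      refine hw (fun i => a i.succ) (fun i => ha _) fun l => ?_
      have := h1 l
      rw [Fin.sum_univ_succ, h2, mul_zero, zero_add] at this
      exact this
    have h4 : a 0 = 0 := by
      have := hs l0
      rw [Fin.sum_univ_succ, Finset.sum_eq_zero (fun i _ => by rw [h3, zero_mul]), add_zero] at this
      exact tf_of_ro π hro _ _ (ha 0) hil this
    intro i
    exact Fin.cases h4 h3 i
  choose W' hW' using fun i m => pf_surj Mag.proj (Mag.proj_surj (D := D)) (W i m)
  refine ⟨W', strebel π _ ?_⟩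
  convert hW using 3 with i l
  simp only [map_sum, map_mul, hW', pf_comp, Matrix.mul_apply]
  rfl

theorem fol_ker_hol (V : Type) [Group V] (n : ℕ) : HJI.Fol.Fol (hol V n).ker :=
  haveI := solvable_of_dS _ (dS_ker_hol V n)
  Pool.Agent.Helper375.EA.fol_of_solvable

theorem rank_all (V : Type) [Group V] [Finite V] {Γ : Type} [Group Γ] (hN : NI Γ)
    {k : ℕ} {x : Fin k → Γ} (hx : Subgroup.closure (Set.range x) = ⊤) :
    ∀ (j : ℕ) (φ : Γ →* Mag (Tw V j)), (∃ g, hol V j (φ g).d ≠ 1) → ∀ η, Good x φ η →
      ∃ w : Fin j → Fin k → ℤ[Tw V j], Indep (hol V j) fun i l =>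
        ∑ m, w i m * pf (Mag.proj.comp φ) (η m l)
  | 0, _, _, _, _ => ⟨fun i => i.elim0, fun _ _ _ i => i.elim0⟩
  | j + 1, φ, hφ, η', hη' => by
    obtain ⟨η, hη⟩ := exists_good (D := Tw V j) hN x hx (Mag.proj.comp φ)
    exact rank_step (D := Tw V j) (hol V j) (ro_of_li (li_ker_hol V j)) hN hx φ hφ hη hη'
      (rank_all V hN hx j (Mag.proj.comp φ) hφ η hη)

/-- Main property of the tower: no small non-indicable subgroups high up. -/
theorem tower_trivial (V : Type) [Group V] [Finite V] {Γ : Type} [Group Γ] (hN : NI Γ)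
    {k : ℕ} {x : Fin k → Γ} (hx : Subgroup.closure (Set.range x) = ⊤) {j : ℕ}
    (hj : k * Nat.card V < j) (φ : Γ →* Tw V (j + 1)) (g : Γ) : φ g = 1 := by
  refine eq_one_of_hol V hN _ φ (fun g => ?_) g
  by_contra hg
  obtain ⟨η, hη⟩ := exists_good (D := Tw V j) hN x hx φ
  obtain ⟨w, hw⟩ := rank_all V hN hx j φ ⟨g, hg⟩ η hη
  exact absurd (indep_bound _ (fol_ker_hol V j) _ hw) (by omega)

end Pool.Agent.H387Z.QI
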