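import Mathlib
import Pool.Agent.H387Z.QI.Logic
import Pool.Agent.H387Z.QI.Rank
import Pool.Agent.H387Z.QI.Perfect

set_option autoImplicit false
set_option linter.style.haveILetI false

namespace Pool.Agent.H387Z.QI

universe u

open Function

/-- consequences of a subgroup in the class `C` -/
def cons (C : Cls) {F : Type} [Group F] (N : Subgroup F) : Subgroup F where
  carrier := {g | ∃ U : Finset F, (∀ u ∈ U, u ∈ N) ∧ ∀ (K : Type) [Group K], C K → Imp K U g}
  one_mem' := ⟨∅, by simp, fun K _ _ φ _ => map_one _⟩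
  mul_mem' := by
    classical
    rintro a b ⟨A, hA, ha⟩ ⟨B, hB, hb⟩
    refine ⟨A ∪ B, fun u hu => (Finset.mem_union.mp hu).elim (hA u) (hB u), fun K _ hK φ hφ => ?_⟩
    rw [map_mul, ha K hK φ fun u hu => hφ u (Finset.mem_union_left _ hu),
      hb K hK φ fun u hu => hφ u (Finset.mem_union_right _ hu), one_mul]
  inv_mem' := by
    rintro a ⟨A, hA, ha⟩
    exact ⟨A, hA, fun K _ hK φ hφ => by rw [map_inv, ha K hK φ hφ, inv_one]⟩

instance (C : Cls) {F : Type} [Group F] (N : Subgroup F) : (cons C N).Normal := ⟨by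
  rintro a ⟨A, hA, ha⟩ g
  exact ⟨A, hA, fun K _ hK φ hφ => by simp [ha K hK φ hφ]⟩⟩

theorem le_cons (C : Cls) {F : Type} [Group F] (N : Subgroup F) : N ≤ cons C N := fun g hg =>
  ⟨{g}, by simpa using hg, fun K _ _ φ hφ => hφ g (by simp)⟩

theorem cons_finite (C : Cls) {F : Type} [Group F] (N : Subgroup F) {ι : Type} [Finite ι]
    (y : ι → F) (hy : ∀ i, y i ∈ cons C N) :
    ∃ U : Finset F, (∀ u ∈ U, u ∈ N) ∧ ∀ (K : Type) [Group K], C K → ∀ i, Imp K U (y i) := by
  classical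
  haveI := Fintype.ofFinite ι
  choose A hA ha using hy
  refine ⟨Finset.univ.biUnion A, fun u hu => ?_, fun K _ hK i φ hφ => ?_⟩
  · obtain ⟨i, -, hi⟩ := Finset.mem_biUnion.mp hu
    exact hA i u hi
  · exact ha i K hK φ fun u hu => hφ u (Finset.mem_biUnion.mpr ⟨i, Finset.mem_univ _, hu⟩)

theorem Nice.cons_quot {C : Cls} (hC : Nice C) {F : Type} [Group F] (N : Subgroup F) :
    C (F ⧸ cons C N) := by
  refine hC.quasi F _ (QuotientGroup.mk' _) (QuotientGroup.mk'_surjective _) fun U w hU hw => ?_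
  obtain ⟨U', h1, h2⟩ := cons_finite C N (ι := U) (fun u => u) fun u =>
    (QuotientGroup.eq_one_iff _).mp (hU u u.2)
  exact (QuotientGroup.eq_one_iff _).mpr
    ⟨U', h1, fun K _ hK φ hφ => hw K hK φ fun u hu => h2 K hK ⟨u, hu⟩ φ hφ⟩

theorem Nice.perfect_bot {C : Cls} (hC : Nice C) {G : Type} [Group G] (hG : C G)
    (hF : HJI.Fol.Fol G) {P : Subgroup G} (hP : P.FG) (h : P ≤ ⁅P, P⁆) : P = ⊥ := by
  have := hC.perfect P (hC.sub G P P.subtype P.subtype_injective hG)
    (HJI.Fol.fol_of_injective P.subtype P.subtype_injective hF)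
    ((Group.fg_iff_subgroup_fg _).mpr hP) (commutator_eq_top_of_le h)
  exact Subgroup.eq_bot_of_subsingleton P

section Main

variable {V : Type} [Group V] [Finite V]

theorem tw_small {k j : ℕ} (hj : k * Nat.card V < j) (φ : FreeGroup (Fin k) →* Tw V (j + 1))
    (hN : NI φ.range) (w : FreeGroup (Fin k)) : φ w = 1 :=
  tower_trivial V hN (closure_gen φ.rangeRestrict φ.rangeRestrict_surjective) hj
    φ.range.subtype ⟨_, w, rfl⟩

omit [Finite V] in
theorem tw_onto (hmin : ∀ H : Subgroup V, H ≤ ⁅H, H⁆ → H = ⊥ ∨ H = ⊤) {k j : ℕ}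
    (φ : FreeGroup (Fin k) →* Tw V (j + 1)) (hN : NI φ.range) :
    (∀ w, φ w = 1) ∨ Surjective ((hol V (j + 1)).comp φ) := by
  rcases hmin _ (hol_perfect V hN _ (closure_gen φ.rangeRestrict φ.rangeRestrict_surjective) j
    φ.range.subtype) with h | h
  · left
    intro w
    refine eq_one_of_hol V hN _ φ.range.subtype (fun g => ?_) ⟨_, w, rfl⟩
    exact Subgroup.mem_bot.mp (h ▸ ⟨g, rfl⟩)
  · right
    intro v
    obtain ⟨⟨_, w, rfl⟩, hw⟩ : v ∈ ((hol V (j + 1)).comp φ.range.subtype).range :=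
      h ▸ Subgroup.mem_top v
    exact ⟨w, hw⟩

omit [Finite V] in
theorem tw_tf [Nontrivial V] (hV : commutator V = ⊤)
    (hmin : ∀ H : Subgroup V, H ≤ ⁅H, H⁆ → H = ⊥ ∨ H = ⊤) (j : ℕ) : TorsionFree (Tw V (j + 1)) := by
  intro g n hn hg
  let φ : FreeGroup (Fin 1) →* Tw V (j + 1) := FreeGroup.lift fun _ => g
  have hφ : φ (FreeGroup.of 0) = g := by simp [φ]
  have hN : NI φ.range := by
    rw [ni_range_iff]
    intro f hf w
    have h1 : f (FreeGroup.of 0 ^ n) = 1 := hf (by rw [MonoidHom.mem_ker, map_pow, hφ, hg])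
    rw [map_pow] at h1
    have h2 := congrArg Multiplicative.toAdd h1
    simp only [toAdd_pow, nsmul_eq_mul, toAdd_one, mul_eq_zero, Nat.cast_eq_zero] at h2
    have h3 : f (FreeGroup.of 0) = 1 := h2.resolve_left (by omega)
    have : f = 1 := by
      ext1 i
      rw [Subsingleton.elim i 0, h3]; rfl
    rw [this]; rfl
  rcases tw_onto hmin φ hN with h | h
  · rw [← hφ, h]
  · exfalso
    have hc : ∀ a b : V, a * b = b * a := by
      have hz : ∀ a : V, a ∈ Subgroup.zpowers (hol V (j + 1) g) := by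
        intro a
        obtain ⟨w, rfl⟩ := h a
        have : φ.range ≤ Subgroup.zpowers g := by
          rw [FreeGroup.range_lift_eq_closure, Subgroup.closure_le]
          rintro _ ⟨i, rfl⟩
          exact Subgroup.mem_zpowers g
        obtain ⟨m, hm⟩ := this ⟨w, rfl⟩
        exact ⟨m, by rw [MonoidHom.comp_apply, ← hm]; simp⟩
      intro a b
      obtain ⟨m, rfl⟩ := hz a
      obtain ⟨l, rfl⟩ := hz b
      exact zpow_mul_comm _ _ _
    have : commutator V ≤ ⊥ := by
      rw [commutator_def, Subgroup.commutator_le]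
      intro a _ b _
      rw [Subgroup.mem_bot, commutatorElement_eq_one_iff_mul_comm]
      exact hc a b
    rw [hV] at this
    exact top_ne_bot (le_bot_iff.mp this)

theorem tw_fol (n : ℕ) : HJI.Fol.Fol (Tw V n) :=
  haveI : (hol V n).ker.FiniteIndex := Subgroup.finiteIndex_ker _
  fol_of_virt (hol V n).ker (dS_ker_hol V n)

theorem tw_not {C : Cls} (hC : Nice C) [Nontrivial V] (hV : commutator V = ⊤) (n : ℕ) :
    ¬ C (Tw V n) := by
  intro h
  obtain ⟨P, hP, h1, h2⟩ := perfect_lift (hol V n) (hol V n) (hol_surj V n) le_rfl hV n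
  rw [dS_ker_hol, sup_bot_eq] at h1
  rw [hC.perfect_bot h (tw_fol n) hP h1, Subgroup.map_bot] at h2
  exact bot_ne_top h2

theorem tw_eventually {C : Cls} (hC : Nice C) (q : QuasiIdentity)
    (hq : ∀ (K : Type) [Group K], C K → q.Holds K) : ∃ c, ∀ m ≥ c, q.Holds (Tw V (m + 1)) := by
  classical
  by_contra hc
  push Not at hc
  simp only [holds_iff_imp, Imp] at hc hq
  push Not at hc
  choose m hm φ h1 h2 using hc
  let N : Subgroup (FreeGroup (Fin q.m)) :=
    { carrier := {g | ∀ᶠ c in Filter.atTop, φ c g = 1}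
      one_mem' := Filter.Eventually.of_forall fun c => map_one _
      mul_mem' := fun ha hb => (ha.and hb).mono fun c h => by rw [map_mul, h.1, h.2, one_mul]
      inv_mem' := fun ha => ha.mono fun c h => by rw [map_inv, h, inv_one] }
  haveI : N.Normal := ⟨fun a ha g => ha.mono fun c h => by simp [h]⟩
  have hLI : LocallyIndicable (FreeGroup (Fin q.m) ⧸ N) := by
    rw [li_iff]
    intro S hS hN
    obtain ⟨k, s, rfl⟩ := exists_range_of_fg hS
    obtain ⟨t, ht⟩ := exists_lift_hom (QuotientGroup.mk' N) (QuotientGroup.mk'_surjective N) s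
    obtain ⟨U, hU, hU'⟩ := ni_witness s hN
    rw [eq_bot_iff]
    rintro _ ⟨w, rfl⟩
    rw [← ht]
    refine (QuotientGroup.eq_one_iff _).mpr ?_
    have h3 : ∀ᶠ c in Filter.atTop, ∀ u ∈ U, φ c (t u) = 1 :=
      (Filter.eventually_all_finset U).mpr fun u hu =>
        (QuotientGroup.eq_one_iff _).mp ((ht u).trans (hU u hu))
    refine (h3.and (Filter.eventually_gt_atTop (k * Nat.card V))).mono fun c h => ?_
    exact tw_small (h.2.trans_le (hm c)) ((φ c).comp t) (hU' _ _ h.1) w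
  have := hq _ (hC.li _ hLI) (QuotientGroup.mk' N) fun u hu =>
    (QuotientGroup.eq_one_iff _).mpr (Filter.Eventually.of_forall fun c => h1 c u (by convert hu))
  obtain ⟨c, hc⟩ := Filter.Eventually.exists ((QuotientGroup.eq_one_iff _).mp this)
  exact h2 c hc

variable (V) in
/-- the laws of the first groups of the tower -/
def laws (n : ℕ) : Subgroup (FreeGroup V) where
  carrier := {g | ∀ m ≤ n, ∀ φ : FreeGroup V →* Tw V (m + 1), φ g = 1}
  one_mem' := fun _ _ _ => map_one _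
  mul_mem' := fun ha hb m hm φ => by rw [map_mul, ha m hm, hb m hm, one_mul]
  inv_mem' := fun ha m hm φ => by rw [map_inv, ha m hm, inv_one]

theorem exists_y {C : Cls} (hC : Nice C) (hV : commutator V = ⊤) (n : ℕ) :
    ∃ (y : V → FreeGroup V) (W : Finset (FreeGroup V)), (∀ v, FreeGroup.lift id (y v) = v) ∧
      (∀ u ∈ W, u ∈ laws V n) ∧ ∀ (K : Type) [Group K], C K → ∀ v, Imp K W (y v) := by
  let β : FreeGroup V →* ((V → V) → V) := Pi.monoidHom fun t => FreeGroup.lift t
  have hβ : ∀ ψ : FreeGroup V →* V, β.ker ≤ ψ.ker := by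
    intro ψ g hg
    have := congrFun hg fun i => ψ (FreeGroup.of i)
    rw [MonoidHom.mem_ker, ← lift_of_apply]
    exact this
  obtain ⟨P, hP, h1, h2⟩ := perfect_lift β (FreeGroup.lift id)
    (fun v => ⟨FreeGroup.of v, by simp⟩) (hβ _) hV (n + 1)
  have hL : dS β.ker (n + 1) ≤ laws V n := by
    intro g hg m hm φ
    have h3 := dS_map_le φ (N := β.ker) (M := (hol V (m + 1)).ker)
      (by rintro _ ⟨a, ha, rfl⟩; exact hβ ((hol V (m + 1)).comp φ) ha) (n + 1) ⟨g, hg, rfl⟩
    have h4 := dS_anti _ (show m + 1 ≤ n + 1 by omega) h3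
    rwa [dS_ker_hol] at h4
  let M := cons C (laws V n)
  let f := QuotientGroup.mk' M
  have hf : Surjective f := QuotientGroup.mk'_surjective M
  have h5 : (dS β.ker (n + 1)).map f = ⊥ := by
    rw [Subgroup.map_eq_bot_iff, QuotientGroup.ker_mk']
    exact hL.trans (le_cons C _)
  haveI : (β.ker.map f).Normal := Subgroup.Normal.map inferInstance f hf
  haveI : β.ker.FiniteIndex := Subgroup.finiteIndex_ker _
  haveI : (β.ker.map f).FiniteIndex :=
    ⟨fun h => Subgroup.FiniteIndex.index_ne_zero (H := β.ker)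
      (Nat.eq_zero_of_zero_dvd (h ▸ Subgroup.index_map_dvd β.ker hf))⟩
  have h6 : P.map f = ⊥ := by
    refine hC.perfect_bot (hC.cons_quot _) (fol_of_virt (β.ker.map f) (c := n + 1) ?_)
      (fg_map hP f) ?_
    · rw [← dS_map, h5]
    · have := Subgroup.map_mono (f := f) h1
      rwa [Subgroup.map_sup, h5, sup_bot_eq, Subgroup.map_commutator] at this
  rw [Subgroup.map_eq_bot_iff, QuotientGroup.ker_mk'] at h6
  have h7 : ∀ v : V, ∃ y ∈ P, FreeGroup.lift id y = v := fun v => by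
    have : v ∈ P.map (FreeGroup.lift id) := h2 ▸ Subgroup.mem_top v
    exact this
  choose y hy hy' using h7
  obtain ⟨W, hW, hW'⟩ := cons_finite C (laws V n) y fun v => h6 (hy v)
  exact ⟨y, W, hy', hW, hW'⟩

theorem cover {C : Cls} (hC : Nice C) [Nontrivial V]
    (hmin : ∀ H : Subgroup V, H ≤ ⁅H, H⁆ → H = ⊥ ∨ H = ⊤)
    (y : ℕ → V → FreeGroup V) (W : ℕ → Finset (FreeGroup V))
    (hy : ∀ n v, FreeGroup.lift id (y n v) = v) (hW : ∀ n, ∀ u ∈ W (n + 1), u ∈ laws V n)
    (hW0 : ∀ v, FreeGroup.of v ∈ W 0) (n : ℕ) {H : Type} [Group H] {k : ℕ}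
    (p : FreeGroup (Fin k) →* H) (hp : Surjective p)
    (hT : ∀ q : QuasiIdentity, (∀ (K : Type) [Group K], C K → q.Holds K) →
      (∀ m ≤ n, q.Holds (Tw V (m + 1))) → q.Holds H)
    (hρ : ∀ j ≤ n, ∀ u ∈ W j, Imp H (W (j + 1)) (FreeGroup.lift (y j) u)) : C H := by
  classical
  let M := cons C p.ker
  let p' : H →* FreeGroup (Fin k) ⧸ M := p.liftOfRightInverse (surjInv hp) (rightInverse_surjInv _)
    ⟨QuotientGroup.mk' M, by rw [QuotientGroup.ker_mk']; exact le_cons C _⟩
  have hp' : ∀ w, p' (p w) = QuotientGroup.mk' M w := fun w =>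
    MonoidHom.liftOfRightInverse_comp_apply _ _ _ _ _
  refine hC.ext H _ p' (hC.cons_quot _) ?_
  rw [li_iff]
  intro S hS hN
  obtain ⟨l, s0, rfl⟩ := exists_range_of_fg hS
  let s : FreeGroup (Fin l) →* H := p'.ker.subtype.comp s0
  have hN' : NI s.range := by
    rw [ni_range_iff] at hN ⊢
    intro g hg
    exact hN g fun u hu => hg (by rw [MonoidHom.mem_ker, MonoidHom.comp_apply, hu, map_one])
  obtain ⟨t, ht⟩ := exists_lift_hom p hp s
  have htM : ∀ w, t w ∈ M := fun w =>
    (QuotientGroup.eq_one_iff _).mp ((hp' _).symm.trans (by rw [ht]; exact (s0 w).2))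
  obtain ⟨U0, hU0, hU0'⟩ := cons_finite C p.ker (fun i => t (FreeGroup.of i)) fun i => htM _
  obtain ⟨U1, hU1, hU1'⟩ := ni_witness s hN'
  have K1 : ∀ (U : Finset (FreeGroup (Fin l))) (w : FreeGroup (Fin l)), (∀ u ∈ U, s u = 1) →
      (∀ m ≤ n, Imp (Tw V (m + 1)) U w) → s w = 1 := by
    intro U w hU hw
    obtain ⟨q, hq⟩ := exists_qi (U0 ∪ U.image t) (t w)
    rw [← ht]
    refine (hq H).mp (hT q (fun K _ hK => (hq K).mpr fun φ hφ => ?_)
      fun m hm => (hq _).mpr fun φ hφ => ?_) p fun u hu => ?_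
    · have : φ.comp t = 1 := by
        ext i
        exact hU0' K hK i φ fun u hu => hφ u (Finset.mem_union_left _ hu)
      exact DFunLike.congr_fun this w
    · exact hw m hm (φ.comp t) fun u hu =>
        hφ _ (Finset.mem_union_right _ (Finset.mem_image_of_mem _ hu))
    · rcases Finset.mem_union.mp hu with hu | hu
      · exact hU0 u hu
      · obtain ⟨v, hv, rfl⟩ := Finset.mem_image.mp hu
        rw [ht, hU v hv]
  rw [eq_bot_iff]
  rintro _ ⟨w0, rfl⟩
  by_contra hw0
  have hw0' : s w0 ≠ 1 := fun h => hw0 (Subtype.ext h)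
  obtain ⟨ψ, hψ, hker⟩ : ∃ ψ : FreeGroup (Fin l) →* V, Surjective ψ ∧ ∀ u, s u = 1 → ψ u = 1 := by
    by_contra hc
    push Not at hc
    choose! r hr1 hr2 using hc
    haveI : Finite (FreeGroup (Fin l) →* V) := Finite.of_equiv _ FreeGroup.lift
    haveI := Fintype.ofFinite (FreeGroup (Fin l) →* V)
    refine hw0' (K1 (U1 ∪ (Finset.univ.filter fun ψ : FreeGroup (Fin l) →* V =>
      Surjective ψ).image r) w0 (fun u hu => ?_) fun m _ φ hφ => ?_)
    · rcases Finset.mem_union.mp hu with hu | hu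
      · exact hU1 u hu
      · obtain ⟨ψ, hψ, rfl⟩ := Finset.mem_image.mp hu
        exact hr1 ψ (Finset.mem_filter.mp hψ).2
    · rcases tw_onto hmin φ (hU1' _ φ fun u hu => hφ u (Finset.mem_union_left _ hu)) with h | h
      · exact h w0
      · refine absurd ?_ (hr2 _ h)
        rw [MonoidHom.comp_apply, hφ _ (Finset.mem_union_right _
          (Finset.mem_image_of_mem _ (Finset.mem_filter.mpr ⟨Finset.mem_univ _, h⟩))), map_one]
  have desc : ∀ i ≤ n + 1, ∃ a : FreeGroup V →* FreeGroup (Fin l),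
      (∀ w, ψ (a w) = FreeGroup.lift id w) ∧ ∀ u ∈ W (n + 1 - i), s (a u) = 1 := by
    intro i
    induction i with
    | zero =>
      intro _
      obtain ⟨a, ha⟩ := exists_lift_hom ψ hψ (FreeGroup.lift id)
      exact ⟨a, ha, fun u hu => K1 ∅ _ (by simp) fun m hm φ _ => hW n u hu m hm (φ.comp a)⟩
    | succ i ih =>
      intro hi
      obtain ⟨a, ha, ha'⟩ := ih (by omega)
      have e : n + 1 - i = (n + 1 - (i + 1)) + 1 := by omega
      rw [e] at ha'
      refine ⟨a.comp (FreeGroup.lift (y (n + 1 - (i + 1)))), fun w => ?_, fun u hu => ?_⟩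
      · have : ψ.comp (a.comp (FreeGroup.lift (y (n + 1 - (i + 1))))) = FreeGroup.lift id := by
          ext v; simp [ha, hy]
        exact DFunLike.congr_fun this w
      · exact hρ _ (by omega) u hu (s.comp a) ha'
  obtain ⟨a, ha, ha'⟩ := desc (n + 1) le_rfl
  rw [Nat.sub_self] at ha'
  obtain ⟨v, hv⟩ := exists_ne (1 : V)
  have := hker _ (ha' _ (hW0 v))
  rw [ha] at this
  exact hv (by simpa using this)

end Main

theorem blocks (X : ℕ → Set QuasiIdentity) (hX : ∀ i, (X i).Finite) (G : ℕ → Type)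
    [∀ m, Group (G m)] (h1 : ∀ m i, m < i → Mod (X i) (G m))
    (h2 : ∀ i, ∃ c, ∀ m ≥ c, Mod (X i) (G m)) (h3 : ∀ m, ¬ ∀ i, Mod (X i) (G m)) :
    ∃ S : Set QuasiIdentity, (∀ (K : Type) [Group K], Mod S K ↔ ∀ i, Mod (X i) K) ∧
      ∀ q ∈ S, ∃ m, Mod (S \ {q}) (G m) ∧ ¬ q.Holds (G m) := by
  choose c hc using h2
  let f : ℕ → ℕ := fun a => a + (Finset.range a).sup c
  have hf : ∀ a, ∀ i < a, Mod (X i) (G (f a)) := fun a i hi =>
    hc i _ ((Finset.le_sup (f := c) (Finset.mem_range.mpr hi)).trans (Nat.le_add_left _ _))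
  let a : ℕ → ℕ := fun j => Nat.rec 0 (fun _ x => f x + 1) j
  have ha : ∀ j, a (j + 1) = f (a j) + 1 := fun j => rfl
  have hmono : StrictMono a := strictMono_nat_of_lt_succ fun j => by
    rw [ha]; exact Nat.lt_succ_of_le (Nat.le_add_right _ _)
  choose σ hσ using fun j => exists_conj_fin (X := ⋃ i ∈ Set.Ico (a j) (a (j + 1)), X i)
    ((Set.finite_Ico _ _).biUnion fun i _ => hX i)
  have hσ' : ∀ j (K : Type) [Group K], (σ j).Holds K ↔
      ∀ i, a j ≤ i → i < a (j + 1) → Mod (X i) K := by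
    intro j K _
    rw [hσ]
    constructor
    · intro h i h1 h2 q hq
      exact h q (Set.mem_biUnion (show i ∈ Set.Ico _ _ from ⟨h1, h2⟩) hq)
    · intro h q hq
      obtain ⟨i, hi, hq⟩ := Set.mem_iUnion₂.mp hq
      exact h i hi.1 hi.2 q hq
  have hcov : ∀ i, ∃ j, a j ≤ i ∧ i < a (j + 1) := by
    intro i
    induction i with
    | zero => exact ⟨0, le_rfl, hmono (Nat.zero_lt_succ 0)⟩
    | succ i ih =>
      obtain ⟨j, h1, h2⟩ := ih
      by_cases h : i + 1 < a (j + 1)
      · exact ⟨j, by omega, h⟩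
      · have : a (j + 1) < a (j + 1 + 1) := hmono (Nat.lt_succ_self (j + 1))
        exact ⟨j + 1, by omega, by omega⟩
  have hS : ∀ (K : Type) [Group K], Mod (Set.range σ) K ↔ ∀ i, Mod (X i) K := by
    intro K _
    constructor
    · intro h i
      obtain ⟨j, h1, h2⟩ := hcov i
      exact (hσ' j K).mp (h _ ⟨j, rfl⟩) i h1 h2
    · rintro h _ ⟨j, rfl⟩
      exact (hσ' j K).mpr fun i _ _ => h i
  refine ⟨Set.range σ, hS, ?_⟩
  rintro _ ⟨j, rfl⟩
  have key : ∀ l, l ≠ j → (σ l).Holds (G (f (a j))) := by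
    intro l hl
    refine (hσ' l _).mpr fun i hi1 hi2 => ?_
    rcases lt_or_gt_of_ne hl with h | h
    · exact hf _ i (hi2.trans_le (hmono.monotone h))
    · exact h1 _ i (by have := hmono.monotone (show j + 1 ≤ l from h); have := ha j; omega)
  refine ⟨f (a j), ?_, fun h => h3 (f (a j)) ((hS _).mp ?_)⟩
  · rintro _ ⟨⟨l, rfl⟩, hl⟩
    exact key l fun e => hl (by rw [e]; rfl)
  · rintro _ ⟨l, rfl⟩
    by_cases e : l = j
    · rw [e]; exact h
    · exact key l e

theorem Nice.holds_of_fg {K : Type u} [Group K] {q : QuasiIdentity}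
    (h : ∀ (φ : FreeGroup (Fin q.m) →* K), q.Holds (FreeGroup (Fin q.m) ⧸ φ.ker)) : q.Holds K := by
  intro x hx
  have := (holds_iff_imp q _).mp (h (FreeGroup.lift x)) (QuotientGroup.mk' _) fun u hu =>
    (QuotientGroup.eq_one_iff _).mpr (hx u (by simpa using hu))
  exact (QuotientGroup.eq_one_iff _).mp this

theorem basis0 {C : Cls} (hC : Nice C) : ∃ S : Set QuasiIdentity,
    (∀ (K : Type) [Group K], C K → Mod S K) ∧
    (∀ (K : Type) [Group K] (k : ℕ) (p : FreeGroup (Fin k) →* K), Surjective p → Mod S K → C K) ∧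
    ∀ q ∈ S, ∃ (G : Type) (_ : Group G), TorsionFree G ∧ Mod (S \ {q}) G ∧ ¬ q.Holds G := by
  classical
  obtain ⟨V, _, _, _, hV, hmin⟩ := exists_minimal_perfect
  haveI := Fintype.ofFinite V
  choose y W0 hy hW0 hyW using exists_y hC hV
  let W : ℕ → Finset (FreeGroup V) := fun n =>
    Nat.casesOn n (Finset.univ.image FreeGroup.of) W0
  choose Q hQ using fun j u => exists_qi (W (j + 1)) (FreeGroup.lift (y j) u)
  let ρ : ℕ → Set QuasiIdentity := fun j => Q j '' (SetLike.coe (W j))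
  let T : ℕ → Set QuasiIdentity := fun n =>
    {q | (∀ (K : Type) [Group K], C K → q.Holds K) ∧ ∀ m ≤ n, q.Holds (Tw V (m + 1))}
  have hρC : ∀ j, ∀ q ∈ ρ j, ∀ (K : Type) [Group K], C K → q.Holds K := by
    rintro j _ ⟨u, -, rfl⟩ K _ hK
    refine (hQ j u K).mpr fun φ hφ => ?_
    have : φ.comp (FreeGroup.lift (y j)) = 1 := by
      ext v
      simpa using hyW j K hK v φ hφ
    exact DFunLike.congr_fun this u
  obtain ⟨τ, hτ⟩ := Set.Countable.exists_eq_range
    (Set.to_countable {q : QuasiIdentity | ∀ (K : Type) [Group K], C K → q.Holds K})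
    ⟨⟨0, [], 1⟩, fun K _ _ x _ => map_one _⟩
  have hτC : ∀ i (K : Type) [Group K], C K → (τ i).Holds K := fun i =>
    (hτ ▸ ⟨i, rfl⟩ : τ i ∈ {q : QuasiIdentity | ∀ (K : Type) [Group K], C K → q.Holds K})
  have hcomp := fun i => compactness (T i ∪ ⋃ j ≤ i, ρ j) (τ i) fun K _ hK =>
    Nice.holds_of_fg fun φ => hτC i _ (cover hC hmin y W hy hW0
      (fun v => Finset.mem_image_of_mem _ (Finset.mem_univ v)) i (QuotientGroup.mk' φ.ker)
      (QuotientGroup.mk'_surjective _)
      (fun q h1 h2 => (hK q (Or.inl ⟨h1, h2⟩)).of_injective _ (QuotientGroup.kerLift_injective φ))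
      fun j hj u hu => (hQ j u _).mp ((hK _ (Or.inr (Set.mem_biUnion hj ⟨u, hu, rfl⟩))).of_injective
        _ (QuotientGroup.kerLift_injective φ)))
  choose T' hT'1 hT'2 hT'3 using hcomp
  let X : ℕ → Set QuasiIdentity := fun i => (T' i ∩ T i) ∪ ρ i
  have hXfin : ∀ i, (X i).Finite := fun i =>
    ((hT'2 i).inter_of_left _).union ((Finset.finite_toSet _).image _)
  have hXC : ∀ i, ∀ q ∈ X i, ∀ (K : Type) [Group K], C K → q.Holds K := by
    rintro i q (h | h)
    · exact h.2.1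
    · exact hρC i q h
  have hdef : ∀ (K : Type) [Group K] (k : ℕ) (p : FreeGroup (Fin k) →* K), Surjective p →
      (∀ i, Mod (X i) K) → C K := by
    intro K _ k p hp h
    refine hC.quasi _ K p hp fun U w hU hw => ?_
    obtain ⟨q, hq⟩ := exists_qi U w
    have : q ∈ Set.range τ := hτ ▸ fun K _ hK => (hq K).mpr (hw K hK)
    obtain ⟨i, rfl⟩ := this
    refine (hq K).mp (hT'3 i K fun r hr => ?_) p hU
    rcases hT'1 i hr with h' | h'
    · exact h i r (Or.inl ⟨hr, h'⟩)
    · obtain ⟨j, -, hj⟩ := Set.mem_iUnion₂.mp h'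
      exact h j r (Or.inr hj)
  obtain ⟨S, hS1, hS2⟩ := blocks X hXfin (fun m => Tw V (m + 1)) (by
    rintro m i hmi q (h | ⟨u, hu, rfl⟩)
    · exact h.2.2 m hmi.le
    · obtain ⟨i, rfl⟩ := Nat.exists_eq_succ_of_ne_zero (show i ≠ 0 by omega)
      exact (hQ _ u _).mpr fun φ _ =>
        hW0 i u hu m (by omega) (φ.comp (FreeGroup.lift (y (i + 1))))) (by
    intro i
    choose! c hc using fun q hq => tw_eventually (V := V) hC q (hXC i q hq)
    obtain ⟨b, hb⟩ := ((hXfin i).image c).bddAbove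
    exact ⟨b, fun m hm q hq => hc q hq m ((hb ⟨q, hq, rfl⟩).trans hm)⟩) (by
    intro m h
    obtain ⟨P, hP, h1, h2⟩ := perfect_lift (hol V (m + 1)) (hol V (m + 1)) (hol_surj V _) le_rfl hV
      (m + 1)
    rw [dS_ker_hol, sup_bot_eq] at h1
    obtain ⟨k, s, rfl⟩ := exists_range_of_fg hP
    have hCP := hdef s.range k s.rangeRestrict s.rangeRestrict_surjective fun i q hq =>
      (h i q hq).of_injective _ s.range.subtype_injective
    have := hC.perfect _ hCP
      (HJI.Fol.fol_of_injective _ s.range.subtype_injective (tw_fol (m + 1)))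
      inferInstance (commutator_eq_top_of_le h1)
    rw [Subgroup.eq_bot_of_subsingleton s.range, Subgroup.map_bot] at h2
    exact bot_ne_top h2)
  refine ⟨S, fun K _ hK => (hS1 K).mpr fun i q hq => hXC i q hq K hK,
    fun K _ k p hp h => hdef K k p hp ((hS1 K).mp h), fun q hq => ?_⟩
  obtain ⟨m, h1, h2⟩ := hS2 q hq
  exact ⟨_, inferInstance, tw_tf hV hmin m, h1, h2⟩

theorem basis_univ {C : Cls} (hC : Nice C) (C' : (G : Type u) → [Group G] → Prop)
    (h1 : ∀ (G : Type u) [Group G] (H : Type) [Group H] (f : H →* G), Injective f → C' G → C H)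
    (h2 : ∀ (G : Type u) [Group G], (∀ (k : ℕ) (φ : FreeGroup (Fin k) →* G),
      C (FreeGroup (Fin k) ⧸ φ.ker)) → C' G) :
    ∃ S : Set QuasiIdentity, DefinesInTorsionFree S C' ∧ IndependentInTorsionFree.{u} S := by
  obtain ⟨S, a1, a2, a3⟩ := basis0 hC
  refine ⟨S, fun G _ _ => ⟨fun h q hq => Nice.holds_of_fg fun φ =>
    a1 _ (h1 G _ _ (QuotientGroup.kerLift_injective φ) h) q hq, fun h => h2 G fun k φ =>
    a2 _ k _ (QuotientGroup.mk'_surjective _) fun q hq =>
      (h q hq).of_injective _ (QuotientGroup.kerLift_injective φ)⟩, fun q hq h => ?_⟩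
  obtain ⟨G, _, b1, b2, b3⟩ := a3 q hq
  let e : ULift.{u} G ≃* G := MulEquiv.ulift
  refine b3 ((h (ULift.{u} G) (fun g n hn hg => ?_) fun p hp =>
    (b2 p hp).of_injective e.toMonoidHom e.injective).of_injective e.symm.toMonoidHom
      e.symm.injective)
  apply e.injective
  rw [map_one]
  exact b1 _ n hn (by rw [← map_pow, hg, map_one])

theorem basis_ro : ∃ S : Set QuasiIdentity,
    DefinesInTorsionFree S (fun (G : Type u) _ => RightOrderable G) ∧
      IndependentInTorsionFree.{u} S := by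
  refine basis_univ nice_ro _ (fun G _ H _ f hf h => (ro_iff.mpr h).of_injective f hf)
    fun G _ h => ro_iff.mp (ro_of_fg fun A => ?_)
  obtain ⟨k, s, hs⟩ := exists_range_of_fg (H := Subgroup.closure (A : Set G)) ⟨A, rfl⟩
  rw [← hs]
  exact (h k s).of_injective (QuotientGroup.quotientKerEquivRange s).symm.toMonoidHom
    (QuotientGroup.quotientKerEquivRange s).symm.injective

theorem basis_li : ∃ S : Set QuasiIdentity,
    DefinesInTorsionFree S (fun (G : Type u) _ => LocallyIndicable G) ∧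
      IndependentInTorsionFree.{u} S := by
  refine basis_univ nice_li _ (fun G _ H _ f hf h => li_of_injective h f hf) fun G _ h => ?_
  rw [li_iff]
  intro H hH hN
  obtain ⟨k, s, rfl⟩ := exists_range_of_fg hH
  have h1 : LocallyIndicable s.range :=
    li_of_injective (h k s) (QuotientGroup.quotientKerEquivRange s).symm.toMonoidHom
      (QuotientGroup.quotientKerEquivRange s).symm.injective
  have h2 := li_iff.mp h1 ⊤ (Group.FG.out) (hN.of_surjective
    (Subgroup.topEquiv (G := s.range)).symm.toMonoidHom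
    (Subgroup.topEquiv (G := s.range)).symm.surjective)
  rw [eq_bot_iff]
  intro g hg
  have : (⟨g, hg⟩ : s.range) ∈ (⊥ : Subgroup s.range) := h2 ▸ Subgroup.mem_top _
  exact congrArg Subtype.val (Subgroup.mem_bot.mp this)

end Pool.Agent.H387Z.QI
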